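import Pool.Agent.P.MP_181197_gt.ConDefs

namespace Pool.Agent.P.MP_87eb76_gt

open Pool.Agent.P.MP_6e1b89_gt

variable (M : Set ZFSet.{0}) {X : Type} (c : X → ZFSet.{0}) (𝒯 : Set (Set X))

/-- every cover of `L` by open sets lying in `M` has a subcover enumerated by a sequence of `M` -/
def LindelofIn (L : Set X) : Prop :=
  ∀ 𝒰 ⊆ 𝒯, cSet (cSet c) 𝒰 ∈ M → L ⊆ ⋃₀ 𝒰 →
    ∃ s : ℕ → Set X, cFun cNat (cSet c) Set.univ s ∈ M ∧ L ⊆ ⋃₀ (𝒰 ∩ Set.range s)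

/-- every cellular family lying in `M` is met by a Lindelof subspace lying in `M` -/
def CellLindIn : Prop :=
  ∀ 𝒰 ⊆ 𝒯, cSet (cSet c) 𝒰 ∈ M → (∀ U ∈ 𝒰, U.Nonempty) → 𝒰.Pairwise Disjoint →
    ∃ L : Set X, cSet c L ∈ M ∧ LindelofIn M c 𝒯 L ∧ ∀ U ∈ 𝒰, (L ∩ U).Nonempty

/-- `M` has a sequence of open neighbourhoods of the diagonal such that every point off the
diagonal has a neighbourhood missing one of them -/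
def RegGDiagIn : Prop :=
  ∃ W : ℕ → Set (X × X),
    cFun cNat (cSet fun p : X × X => ZFSet.pair (c p.1) (c p.2)) Set.univ W ∈ M ∧
    (∀ n, ∀ p ∈ W n, ∃ U ∈ 𝒯, ∃ V ∈ 𝒯, p ∈ U ×ˢ V ∧ U ×ˢ V ⊆ W n) ∧ (∀ n x, (x, x) ∈ W n) ∧
    ∀ x y, x ≠ y → ∃ n, ∃ U ∈ 𝒯, ∃ V ∈ 𝒯, (x, y) ∈ U ×ˢ V ∧ Disjoint (U ×ˢ V) (W n)

end Pool.Agent.P.MP_87eb76_gt
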