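import Pool.Agent.Lib.Helper87.Codes

/-!
The forcing: countable pieces of a matrix together with promises that all later tuples of rows
lie in certain open sets.
-/

open Set Function Filter Topology

namespace Pool.Agent.P.MP_87eb76_gt.Con

/-- the Cantor space -/
abbrev S : Type := ℕ → Bool

/-- rows -/
abbrev T : Type := S × Bool

/-- columns -/
abbrev K : Type := S → Bool

/-- tuples of potential rows -/
abbrev Z : Type := ℕ × K → Bool

/-- a sequence of distinct columns -/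
noncomputable def ι (k : ℕ) : K := fun σ => σ k

theorem ι_inj : Injective ι := fun a b h => by
  have := congrFun h (fun n => decide (n = a))
  simp only [ι, decide_true, true_eq_decide_iff] at this
  exact this.symm

/-- `U` is a union of cylinders supported in `C` -/
def COpen (C : Set K) (U : Set Z) : Prop :=
  ∀ g ∈ U, ∃ E : Finset (ℕ × K), (∀ e ∈ E, e.2 ∈ C) ∧ ∀ g' : Z, (∀ e ∈ E, g' e = g e) → g' ∈ U

theorem COpen.mono {C C' : Set K} {U : Set Z} (h : COpen C U) (hC : C ⊆ C') : COpen C' U :=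
  fun g hg => let ⟨E, h1, h2⟩ := h g hg; ⟨E, fun e he => hC (h1 e he), h2⟩

theorem COpen.congr {C : Set K} {U : Set Z} (h : COpen C U) {g g' : Z} (hg : g ∈ U)
    (e : ∀ i, ∀ r ∈ C, g' (i, r) = g (i, r)) : g' ∈ U :=
  let ⟨_, h1, h2⟩ := h g hg; h2 g' fun x hx => e x.1 x.2 (h1 x hx)

/-- finite injective assignments of rows from `R` -/
structure PI (R : Set T) (v : ℕ → Option T) : Prop where
  fin : ∃ n, ∀ i, n ≤ i → v i = none
  mem : ∀ i t, v i = some t → t ∈ R
  inj : ∀ i j t, v i = some t → v j = some t → i = j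

theorem PI.mono {R R' : Set T} {v : ℕ → Option T} (h : PI R v) (hR : R ⊆ R') : PI R' v :=
  ⟨h.fin, fun i t e => hR (h.mem i t e), h.inj⟩

theorem countable_PI {R : Set T} (hR : R.Countable) : {v | PI R v}.Countable := by
  have := hR.to_subtype
  refine (countable_range fun l : List (Option R) => fun i => (l.getD i none).map Subtype.val).mono
    fun v hv => ?_
  obtain ⟨n, hn⟩ := hv.fin
  refine ⟨List.ofFn fun i : Fin n => (v i).pbind fun t ht => some ⟨t, hv.mem i t ht⟩, ?_⟩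
  funext i
  by_cases hi : i < n
  · simp only [List.getD_eq_getElem?_getD, List.getElem?_ofFn, hi, dif_pos, Option.getD_some]
    exact Option.ext fun a => by simp
  · simp [hi, hn i (not_lt.1 hi)]

/-- substitution of rows into a tuple -/
def mix (s : T → K → Bool) (v : ℕ → Option T) (g : Z) : Z :=
  fun e => (v e.1).elim (g e) fun t => s t e.2

/-- the section of `U` at `v` is dense -/
def Good (s : T → K → Bool) (U : Set Z) (v : ℕ → Option T) : Prop :=
  ∀ (E : Finset (ℕ × K)) (h : Z), ∃ g : Z, (∀ e ∈ E, g e = h e) ∧ mix s v g ∈ U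

theorem Good.congr {s s' : T → K → Bool} {C : Set K} {U : Set Z} {v : ℕ → Option T}
    (h : Good s U v) (hU : COpen C U) (e : ∀ i t, v i = some t → ∀ r ∈ C, s' t r = s t r) :
    Good s' U v := fun E f => by
  obtain ⟨g, h1, h2⟩ := h E f
  refine ⟨g, h1, hU.congr h2 fun i r hr => ?_⟩
  simp only [mix]
  cases hv : v i with
  | none => rfl
  | some t => exact e i t hv r hr

/-- the basic promises -/
def U0 (m : ℕ) (B : Finset ℕ) : Set Z := {g | ∃ k, m ≤ k ∧ ∀ j < m, g (j, ι k) = decide (j ∈ B)}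

/-- conditions -/
structure Cond where
  R : Set T
  C : Set K
  s : T → K → Bool
  N : Set (Set Z × Set T)
  cR : R.Countable
  cC : C.Countable
  cN : N.Countable
  hι : ∀ k, ι k ∈ C
  base : ∀ m B, (U0 m B, ∅) ∈ N
  op : ∀ u ∈ N, COpen C u.1
  good : ∀ u ∈ N, ∀ v, PI (R \ u.2) v → Good s u.1 v

instance : Preorder Cond where
  le q p := p.R ⊆ q.R ∧ p.C ⊆ q.C ∧ p.N ⊆ q.N ∧ ∀ t ∈ p.R, ∀ r ∈ p.C, q.s t r = p.s t r
  le_refl p := ⟨le_rfl, le_rfl, le_rfl, fun _ _ _ _ => rfl⟩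
  le_trans _ _ _ h h' := ⟨h'.1.trans h.1, h'.2.1.trans h.2.1, h'.2.2.1.trans h.2.2.1,
    fun t ht r hr => (h.2.2.2 t (h'.1 ht) r (h'.2.1 hr)).trans (h'.2.2.2 t ht r hr)⟩

theorem le_def {q p : Cond} : q ≤ p ↔ p.R ⊆ q.R ∧ p.C ⊆ q.C ∧ p.N ⊆ q.N ∧
    ∀ t ∈ p.R, ∀ r ∈ p.C, q.s t r = p.s t r := Iff.rfl

theorem eq_none_of_PI {v : ℕ → Option T} {R : Set T} (h : PI (R \ R) v) (i : ℕ) : v i = none := by
  cases hv : v i with
  | none => rfl
  | some t => exact absurd (h.mem i t hv).1 (h.mem i t hv).2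

theorem good_of_dense {s : T → K → Bool} {U : Set Z} {v : ℕ → Option T} (hv : ∀ i, v i = none)
    (h : ∀ (E : Finset (ℕ × K)) (f : Z), ∃ g ∈ U, ∀ e ∈ E, g e = f e) : Good s U v := fun E f => by
  obtain ⟨g, h1, h2⟩ := h E f
  refine ⟨g, h2, ?_⟩
  have : mix s v g = g := funext fun e => by simp [mix, hv]
  rwa [this]

instance : Nonempty Cond := by
  classical
  refine ⟨⟨∅, range ι, fun _ _ => false, range fun x : ℕ × Finset ℕ => (U0 x.1 x.2, ∅),
    countable_empty, countable_range _, countable_range _, mem_range_self, fun m B => ⟨(m, B), rfl⟩,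
    ?_, ?_⟩⟩
  · rintro _ ⟨⟨m, B⟩, rfl⟩ g ⟨k, h1, h2⟩
    refine ⟨(Finset.range m).image fun j => (j, ι k), ?_, fun g' hg => ⟨k, h1, fun j hj => ?_⟩⟩
    · simp
    · rw [← h2 j hj]
      exact hg _ (Finset.mem_image.2 ⟨j, Finset.mem_range.2 hj, rfl⟩)
  · rintro _ ⟨⟨m, B⟩, rfl⟩ v hv
    refine good_of_dense (eq_none_of_PI hv) fun E f => ?_
    have : ∃ k, m ≤ k ∧ ∀ e ∈ E, e.2 ≠ ι k := by
      have h1 : (ι ⁻¹' (Prod.snd '' (E : Set (ℕ × K)))).Finite :=
        (E.finite_toSet.image _).preimage ι_inj.injOn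
      obtain ⟨k, hk, hk'⟩ := (h1.union (finite_Iio m)).infinite_compl.nonempty.imp
        fun k hk => not_or.1 hk
      exact ⟨k, not_lt.1 hk', fun e he h => hk ⟨e, he, h⟩⟩
    obtain ⟨k, h1, h2⟩ := this
    refine ⟨fun e => if e.2 = ι k then decide (e.1 ∈ B) else f e, ⟨k, h1, fun j _ => by simp⟩,
      fun e he => if_neg (h2 e he)⟩

/-- countable directed sets of conditions have lower bounds -/
theorem exists_lb {G : Set Cond} (hc : G.Countable) {p0 : Cond} (h0 : p0 ∈ G)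
    (hd : ∀ p ∈ G, ∀ q ∈ G, ∃ r ∈ G, r ≤ p ∧ r ≤ q) :
    ∃ q : Cond, (∀ p ∈ G, q ≤ p) ∧ (∀ t ∈ q.R, ∃ p ∈ G, t ∈ p.R) ∧ ∀ r ∈ q.C, ∃ p ∈ G, r ∈ p.C := by
  classical
  let s : T → K → Bool := fun t r => decide (∃ p ∈ G, t ∈ p.R ∧ r ∈ p.C ∧ p.s t r = true)
  have hs : ∀ p ∈ G, ∀ t ∈ p.R, ∀ r ∈ p.C, s t r = p.s t r := fun p hp t ht r hr => by
    rw [Bool.eq_iff_iff, decide_eq_true_eq]
    refine ⟨fun ⟨q, a1, a2, a3, a4⟩ => ?_, fun h => ⟨p, hp, ht, hr, h⟩⟩
    obtain ⟨u, -, b1, b2⟩ := hd p hp q a1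
    rw [← b1.2.2.2 t ht r hr, b2.2.2.2 t a2 r a3, a4]
  refine ⟨⟨⋃ p ∈ G, p.R, ⋃ p ∈ G, p.C, s, ⋃ p ∈ G, p.N, hc.biUnion fun p _ => p.cR,
    hc.biUnion fun p _ => p.cC, hc.biUnion fun p _ => p.cN, fun k => mem_biUnion h0 (p0.hι k),
    fun m B => mem_biUnion h0 (p0.base m B), fun u hu => ?_, fun u hu v hv => ?_⟩,
    fun p hp => ⟨subset_biUnion_of_mem (u := Cond.R) hp, subset_biUnion_of_mem (u := Cond.C) hp,
      subset_biUnion_of_mem (u := Cond.N) hp, hs p hp⟩,
    fun t ht => by simpa using ht, fun t ht => by simpa using ht⟩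
  · obtain ⟨p, hp, h⟩ := mem_iUnion₂.1 hu
    exact (p.op u h).mono (subset_biUnion_of_mem (u := Cond.C) hp)
  · obtain ⟨p, hp, h⟩ := mem_iUnion₂.1 hu
    obtain ⟨n, hn⟩ := hv.fin
    have : ∀ m, ∃ q ∈ G, q ≤ p ∧ ∀ i < m, ∀ t, v i = some t → t ∈ q.R := fun m => by
      induction m with
      | zero => exact ⟨p, hp, le_rfl, by simp⟩
      | succ m ih =>
        obtain ⟨q, a1, a2, a3⟩ := ih
        cases hm : v m with
        | none =>
          refine ⟨q, a1, a2, fun i hi t e => a3 i (lt_of_le_of_ne (by omega) ?_) t e⟩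
          rintro rfl
          simp [hm] at e
        | some t0 =>
          obtain ⟨q', b1, b2⟩ := mem_iUnion₂.1 (hv.mem m t0 hm).1
          obtain ⟨u, c1, c2, c3⟩ := hd q a1 q' b1
          refine ⟨u, c1, c2.trans a2, fun i hi t e => ?_⟩
          rcases Nat.lt_succ_iff_lt_or_eq.1 hi with hi | rfl
          · exact c2.1 (a3 i hi t e)
          · rw [hm, Option.some_inj] at e
            exact c3.1 (e ▸ b2)
    obtain ⟨q, a1, a2, a3⟩ := this n
    have a4 : ∀ i t, v i = some t → t ∈ q.R := fun i t e => a3 i (by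
      by_contra hi
      simp [hn i (not_lt.1 hi)] at e) t e
    exact (q.good u (a2.2.2.1 h) v ⟨hv.fin, fun i t e => ⟨a4 i t e, (hv.mem i t e).2⟩, hv.inj⟩).congr
      (q.op u (a2.2.2.1 h)) fun i t e r hr => hs q a1 t (a4 i t e) r hr

theorem isOpen_cyl (E : Finset K) (a : K → Bool) : IsOpen {σ : K → Bool | ∀ r ∈ E, σ r = a r} :=
  isOpen_iff_mem_nhds.2 fun _ hσ => (eventually_all_finset E).2 fun r hr =>
    ((isOpen_discrete ({a r} : Set Bool)).preimage
      (continuous_apply (A := fun _ : K => Bool) r)).mem_nhds (hσ r hr)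

theorem dense_of_cyl {A : Set (K → Bool)}
    (h : ∀ (E : Finset K) (a : K → Bool), ∃ σ ∈ A, ∀ r ∈ E, σ r = a r) : Dense A := by
  refine dense_iff_inter_open.2 fun V hV ⟨a, ha⟩ => ?_
  obtain ⟨E, u, h1, h2⟩ := isOpen_pi_iff.1 hV a ha
  obtain ⟨σ, h3, h4⟩ := h E a
  exact ⟨σ, h2 fun r hr => by rw [h4 r hr]; exact (h1 r hr).2, h3⟩

/-- substitution of a potential row at the position `j` -/
def put (j : ℕ) (σ : K → Bool) (g : Z) : Z := fun e => if e.1 = j then σ e.2 else g e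

/-- adding a row -/
theorem exists_row (p : Cond) {t : T} (ht : t ∉ p.R) (E : Finset K) (a : K → Bool) :
    ∃ q ≤ p, t ∈ q.R ∧ ∀ r ∈ E, r ∈ q.C ∧ q.s t r = a r := by
  classical
  have := p.cN.to_subtype
  have := (countable_PI p.cR).to_subtype
  have := p.cC.to_subtype
  let I := p.N × {v | PI p.R v} × ℕ × Finset (ℕ × p.C) × Finset (ℕ × p.C)
  let A : I → Set (K → Bool) := fun i => {σ | Good p.s i.1.1.1 i.2.1.1 → i.2.1.1 i.2.2.1 = none →
    ∃ g : Z, (∀ e ∈ i.2.2.2.1, g (e.1, e.2.1) = decide (e ∈ i.2.2.2.2)) ∧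
      mix p.s i.2.1.1 (put i.2.2.1 σ g) ∈ i.1.1.1}
  have hA : Dense (⋂ i, A i) := by
    refine dense_iInter_of_isOpen (fun ⟨u, v, j, F, F'⟩ => ?_) fun ⟨u, v, j, F, F'⟩ => ?_
    · refine isOpen_iff_mem_nhds.2 fun σ hσ => ?_
      by_cases hg : Good p.s u.1.1 v.1 ∧ v.1 j = none
      · obtain ⟨g, a1, a2⟩ := hσ hg.1 hg.2
        obtain ⟨D, -, b2⟩ := p.op u.1 u.2 _ a2
        refine mem_of_superset ((isOpen_cyl (D.image Prod.snd) σ).mem_nhds fun _ _ => rfl)
          fun σ' hσ' _ _ => ⟨g, a1, b2 _ fun e he => ?_⟩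
        have := hσ' e.2 (Finset.mem_image_of_mem _ he)
        simp only [mix, put, this]
      · exact Eventually.of_forall fun σ' a b => absurd ⟨a, b⟩ hg
    · refine dense_of_cyl fun D b => ?_
      by_cases hg : Good p.s u.1.1 v.1 ∧ v.1 j = none
      · let f : Z := fun e => decide (∃ x ∈ F', (x.1, x.2.1) = e)
        have hf : ∀ e : ℕ × p.C, f (e.1, e.2.1) = decide (e ∈ F') := fun e => by
          simp only [f, decide_eq_decide]
          refine ⟨fun ⟨x, a1, a2⟩ => ?_, fun h => ⟨e, h, rfl⟩⟩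
          rw [Prod.mk.injEq] at a2
          rwa [← show x = e from Prod.ext a2.1 (Subtype.ext a2.2)]
        obtain ⟨g, a1, a2⟩ := hg.1 (F.image (fun e => (e.1, e.2.1)) ∪ D.image fun r => (j, r))
          (put j b f)
        refine ⟨fun r => g (j, r), fun _ _ => ⟨put j (fun r => f (j, r)) g, fun e he => ?_, ?_⟩,
          fun r hr => ?_⟩
        · rw [← hf]
          by_cases hj : e.1 = j
          · simp [put, hj]
          · have := a1 _ (Finset.mem_union_left _ (Finset.mem_image_of_mem _ he))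
            simpa [put, hj] using this
        · convert a2 using 2
          funext e
          by_cases hj : e.1 = j
          · simp only [put, hj, if_true]
            rw [← hj]
          · simp [put, hj]
        · simpa [put] using a1 _ (Finset.mem_union_right _ (Finset.mem_image_of_mem _ hr))
      · exact ⟨b, fun a b => absurd ⟨a, b⟩ hg, fun _ _ => rfl⟩
  obtain ⟨σ, h1, h2⟩ := hA.inter_open_nonempty _ (isOpen_cyl E a) ⟨a, fun _ _ => rfl⟩
  have hs : ∀ t' ∈ p.R, update p.s t σ t' = p.s t' := fun t' ht' =>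
    update_of_ne (by rintro rfl; exact ht ht') _ _
  refine ⟨⟨insert t p.R, p.C ∪ E, update p.s t σ, p.N, p.cR.insert t,
    p.cC.union E.countable_toSet, p.cN, fun k => Or.inl (p.hι k), p.base,
    fun u hu => (p.op u hu).mono subset_union_left, fun u hu v hv => ?_⟩,
    ⟨subset_insert _ _, subset_union_left, le_rfl, fun t' ht' r _ => by simp only [hs t' ht']⟩,
    mem_insert _ _, fun r hr => ⟨Or.inr hr, by simpa using h1 r hr⟩⟩
  by_cases hj : ∃ j, v j = some t
  · obtain ⟨j, hj⟩ := hj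
    have hv' : ∀ i t', update v j none i = some t' → i ≠ j ∧ v i = some t' ∧ t' ∈ p.R := by
      intro i t' e
      have hi : i ≠ j := by
        rintro rfl
        simp at e
      rw [update_of_ne hi] at e
      refine ⟨hi, e, (hv.mem i t' e).1.resolve_left ?_⟩
      rintro rfl
      exact hi (hv.inj _ _ _ e hj)
    have hP : PI (p.R \ u.2) (update v j none) := by
      obtain ⟨n, hn⟩ := hv.fin
      refine ⟨⟨n, fun i hi => ?_⟩, fun i t' e => ⟨(hv' i t' e).2.2, (hv.mem i t' (hv' i t' e).2.1).2⟩,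
        fun i i' t' e e' => hv.inj _ _ _ (hv' i t' e).2.1 (hv' i' t' e').2.1⟩
      by_cases hij : i = j
      · simp [hij]
      · rw [update_of_ne hij, hn i hi]
    intro D f
    let F : Finset (ℕ × p.C) := D.preimage (fun e => (e.1, e.2.1)) fun x _ y _ e => by
      rw [Prod.mk.injEq] at e
      exact Prod.ext e.1 (Subtype.ext e.2)
    obtain ⟨g, a1, a2⟩ := mem_iInter.1 h2 (⟨u, hu⟩, ⟨_, hP.mono sdiff_subset⟩, j, F,
      F.filter fun e => f (e.1, e.2.1) = true) (p.good u hu _ hP) (by simp)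
    refine ⟨fun e => if e.2 ∈ p.C then g e else f e, fun e he => ?_,
      (p.op u hu).congr a2 fun i r hr => ?_⟩
    · by_cases hr : e.2 ∈ p.C
      · have hF : (e.1, ⟨e.2, hr⟩) ∈ F := Finset.mem_preimage.2 he
        have := a1 _ hF
        simp only [Finset.mem_filter, hF, true_and, Bool.decide_eq_true] at this
        simp [hr, this]
      · simp [hr]
    · by_cases hi : i = j
      · simp [mix, put, hi, hj]
      · simp only [mix, put, update_of_ne hi, hi, if_false, hr, if_true]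
        cases hvi : v i with
        | none => rfl
        | some t' => simp [hs t' (hv' i t' (by rw [update_of_ne hi, hvi])).2.2]
  · push Not at hj
    have hm : ∀ i t', v i = some t' → t' ∈ p.R := fun i t' e =>
      (hv.mem i t' e).1.resolve_left fun e' => hj i (e' ▸ e)
    exact (p.good u hu v ⟨hv.fin, fun i t' e => ⟨hm i t' e, (hv.mem i t' e).2⟩, hv.inj⟩).congr
      (p.op u hu) fun i t' e r _ => by rw [hs t' (hm i t' e)]

theorem exists_fresh (p : Cond) (β : Bool) : ∃ t : T, t.2 = β ∧ t ∉ p.R := by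
  by_contra h
  push Not at h
  have : (univ : Set S).Countable :=
    (p.cR.preimage_of_injOn (f := fun σ : S => (σ, β)) fun _ _ _ _ e => (Prod.mk.inj e).1).mono
      fun σ _ => h (σ, β) rfl
  have h2 := Cardinal.mk_le_aleph0_iff.2 (countable_univ_iff.1 this)
  simp only [Cardinal.mk_pi, Cardinal.mk_fintype, Fintype.card_bool, Cardinal.prod_const,
    Cardinal.mk_nat, Cardinal.lift_id, Nat.cast_ofNat] at h2
  exact (Cardinal.cantor _).not_ge h2

/-- adding a row and a column -/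
theorem exists_entry (p : Cond) (t : T) (r : K) : ∃ q ≤ p, t ∈ q.R ∧ r ∈ q.C := by
  obtain ⟨t0, -, h0⟩ := exists_fresh p true
  obtain ⟨q, h1, -, h2⟩ := exists_row p h0 {r} fun _ => true
  have h3 := (h2 r (Finset.mem_singleton_self r)).1
  by_cases ht : t ∈ q.R
  · exact ⟨q, h1, ht, h3⟩
  · obtain ⟨q', h4, h5, -⟩ := exists_row q ht ∅ fun _ => true
    exact ⟨q', h4.trans h1, h5, h4.2.1 h3⟩

/-- adding promises -/
theorem exists_promise (p : Cond) {I : Type} {A : Set I} (hA : A.Countable) (U : I → Set Z)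
    (h1 : ∀ i ∈ A, COpen p.C (U i))
    (h2 : ∀ i ∈ A, ∀ (E : Finset (ℕ × K)) (f : Z), ∃ g ∈ U i, ∀ e ∈ E, g e = f e) :
    ∃ q ≤ p, ∀ i ∈ A, (U i, p.R) ∈ q.N := by
  refine ⟨⟨p.R, p.C, p.s, p.N ∪ (fun i => (U i, p.R)) '' A, p.cR, p.cC, p.cN.union (hA.image _),
    p.hι, fun m B => Or.inl (p.base m B), ?_, ?_⟩,
    ⟨le_rfl, le_rfl, subset_union_left, fun _ _ _ _ => rfl⟩, fun i hi => Or.inr ⟨i, hi, rfl⟩⟩
  · rintro u (hu | ⟨i, hi, rfl⟩)
    exacts [p.op u hu, h1 i hi]
  · rintro u (hu | ⟨i, hi, rfl⟩) v hv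
    exacts [p.good u hu v hv, good_of_dense (eq_none_of_PI hv) (h2 i hi)]

/-- amalgamation -/
theorem exists_amalg {p q : Cond} (hR : p.R = q.R)
    (hs : ∀ t ∈ p.R, ∀ r ∈ p.C, r ∈ q.C → p.s t r = q.s t r) : ∃ u, u ≤ p ∧ u ≤ q := by
  classical
  have h1 : ∀ t ∈ p.R, ∀ r ∈ p.C, (if r ∈ p.C then p.s t r else q.s t r) = p.s t r :=
    fun t _ r hr => if_pos hr
  have h2 : ∀ t ∈ p.R, ∀ r ∈ q.C, (if r ∈ p.C then p.s t r else q.s t r) = q.s t r :=
    fun t ht r hr => by
      split_ifs with h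
      exacts [hs t ht r h hr, rfl]
  refine ⟨⟨p.R, p.C ∪ q.C, fun t r => if r ∈ p.C then p.s t r else q.s t r, p.N ∪ q.N, p.cR,
    p.cC.union q.cC, p.cN.union q.cN, fun k => Or.inl (p.hι k), fun m B => Or.inl (p.base m B),
    ?_, ?_⟩, ⟨le_rfl, subset_union_left, subset_union_left, h1⟩,
    ⟨hR.ge, subset_union_right, subset_union_right, fun t ht => h2 t (hR ▸ ht)⟩⟩
  · rintro u (hu | hu)
    exacts [(p.op u hu).mono subset_union_left, (q.op u hu).mono subset_union_right]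
  · rintro u (hu | hu) v hv
    · exact (p.good u hu v hv).congr (p.op u hu) fun i t e => h1 t (hv.mem i t e).1
    · exact (q.good u hu v (hR ▸ hv)).congr (q.op u hu) fun i t e => h2 t (hv.mem i t e).1

open Cardinal in
/-- among conditions indexed by the columns two with the same colour are compatible -/
theorem exists_compat (p : K → Cond) (hp : ∀ r, (p r).R.Nonempty) (b : K → ℚ → Prop) :
    ∃ r r', r ≠ r' ∧ b r = b r' ∧ ∃ u, u ≤ p r ∧ u ≤ p r' := by
  choose ρ hρ using fun r => (p r).cR.exists_eq_range (hp r)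
  choose e he using fun r => (p r).cC.exists_eq_range ⟨_, (p r).hι 0⟩
  have : ∀ a b : K, ∃ σ, a σ = b σ → a = b := fun a b => by
    by_cases h : a = b
    · exact ⟨default, fun _ => h⟩
    · exact (ne_iff.1 h).imp fun σ h1 h2 => absurd h2 h1
  choose δ hδ using this
  let Φ : K → (ℕ → T) × (ℕ × ℕ → S) × (ℕ → ℕ × ℕ → Bool) × (ℕ → ℕ → Bool) × (ℚ → Prop) :=
    fun r => (ρ r, fun x => δ (e r x.1) (e r x.2), fun n x => e r n (δ (e r x.1) (e r x.2)),
      fun n i => (p r).s (ρ r i) (e r n), b r)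
  have hΦ : ¬ Injective Φ := fun h => by
    have := mk_le_of_injective h
    simp at this
    exact (cantor _).not_ge this
  obtain ⟨r, r', h1, h2⟩ := not_injective_iff.1 hΦ
  simp only [Φ, Prod.mk.injEq] at h1
  obtain ⟨a1, a2, a3, a4, a5⟩ := h1
  refine ⟨r, r', h2, a5, exists_amalg (by rw [hρ, hρ, a1]) fun t ht ξ c1 c2 => ?_⟩
  rw [hρ] at ht
  rw [he] at c1 c2
  obtain ⟨i, rfl⟩ := ht
  obtain ⟨n, rfl⟩ := c1
  obtain ⟨n', c2⟩ := c2
  have d1 := congrFun (congrFun a3 n) (n, n')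
  have d2 := congrFun a2 (n, n')
  have d3 : e r' n = e r' n' := hδ _ _ (by rw [← d1, ← d2, c2])
  have d4 := congrFun (congrFun a4 n) i
  rw [d4, d3, c2, a1]

end Pool.Agent.P.MP_87eb76_gt.Con
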