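import Pool.Agent.P.MP_87eb76_gt.ConForce

/-!
The generic matrix and the labels of points.
-/

open Set Function Filter Pool.Agent.Lib.Helper87

namespace Pool.Agent.P.MP_87eb76_gt.Con

/-- the generic matrix -/
def yy (w : World Cond) (t : T) (r : K) : Prop :=
  w.Frc fun p => t ∈ p.R ∧ r ∈ p.C ∧ p.s t r = true

theorem meas_yy (t : T) (r : K) : Measurable fun w => yy w t r :=
  measurable_frc fun _ _ h h' => ⟨h.1 h'.1, h.2.1 h'.2.1, (h.2.2.2 t h'.1 r h'.2.1).trans h'.2.2⟩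

theorem yy_iff {w : World Cond} (hw : w.Generic) {p : Cond} (hp : p ∈ w.G) {t : T} (ht : t ∈ p.R)
    {r : K} (hr : r ∈ p.C) : yy w t r ↔ p.s t r = true := by
  refine ⟨fun ⟨q, a1, a2, a3, a4⟩ => ?_, fun h => ⟨p, hp, ht, hr, h⟩⟩
  obtain ⟨u, -, b1, b2⟩ := hw.dir p hp q a1
  rw [← b1.2.2.2 t ht r hr, b2.2.2.2 t a2 r a3, a4]

theorem ev_entry : ∀ᶠ w in gen Cond, ∀ t : T, w.In t → ∀ r : K, w.In r →
    ∃ p ∈ w.G, t ∈ p.R ∧ r ∈ p.C :=
  ev_all fun t => ev_all fun r => ev_dense0 _ fun p => exists_entry p t r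

theorem ev_rows : ∀ᶠ w in gen Cond, ∀ p ∈ w.G, ∀ F : Finset T, (∀ t ∈ F, w.In t) →
    ∃ q ∈ w.G, q ≤ p ∧ ∀ t ∈ F, t ∈ q.R := by
  filter_upwards [ev_generic, ev_entry, ev_const (ι 0)] with w h1 h2 h3 p hp F hF
  exact h1.dir_finset hp F (fun t q => t ∈ q.R) (fun _ _ _ h h' => h.1 h')
    fun t ht => let ⟨q, a1, a2, _⟩ := h2 t (hF t ht) _ h3; ⟨q, a1, a2⟩

theorem ev_pat : ∀ᶠ w in gen Cond, ∀ c : Finset K, (∀ r ∈ c, w.In r) → ∀ (a : K → Prop) (β : Bool),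
    ∃ t : T, w.In t ∧ t.2 = β ∧ ∀ r ∈ c, yy w t r ↔ a r := by
  classical
  have : ∀ (c c' : Finset K) (β : Bool), ∀ᶠ w in gen Cond,
      ∃ t : T, w.In t ∧ t.2 = β ∧ ∀ r ∈ c, yy w t r ↔ r ∈ c' := fun c c' β => by
    filter_upwards [ev_generic, ev_nonempty, ev_dense_ex fun (q : Cond) (t : T) => t.2 = β ∧
      t ∈ q.R ∧ ∀ r ∈ c, r ∈ q.C ∧ q.s t r = decide (r ∈ c')] with w h1 ⟨p, hp⟩ h2
    obtain ⟨q, a1, -, t, a2, a3, a4, a5⟩ := h2 p hp fun q _ => by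
      obtain ⟨t, b1, b2⟩ := exists_fresh q β
      obtain ⟨u, b3, b4, b5⟩ := exists_row q b2 c fun r => decide (r ∈ c')
      exact ⟨u, b3, t, b1, b4, b5⟩
    exact ⟨t, a2, a3, fun r hr => by rw [yy_iff h1 a1 a4 (a5 r hr).1, (a5 r hr).2, decide_eq_true_eq]⟩
  filter_upwards [ev_all_finset fun c => ev_all_finset fun c' => ev_call fun β => this c c' β]
    with w h c hc a β
  obtain ⟨t, a1, a2, a3⟩ := h c hc (c.filter a) (fun r hr => hc r (Finset.mem_filter.1 hr).1) β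
  exact ⟨t, a1, a2, fun r hr => by simp [a3 r hr, hr]⟩

theorem ev_iota : ∀ᶠ w in gen Cond, ∀ F : Finset T, (∀ t ∈ F, w.In t) → ∀ (b : T → Prop) (m : ℕ),
    ∃ k, m ≤ k ∧ ∀ t ∈ F, yy w t (ι k) ↔ b t := by
  classical
  filter_upwards [ev_generic, ev_nonempty, ev_rows] with w h1 ⟨p0, h0⟩ h2 F hF b m
  obtain ⟨p, hp, -, hR⟩ := h2 p0 h0 F hF
  let v : ℕ → Option T := fun i => F.toList[i]?
  have hv : PI (p.R \ ∅) v := ⟨⟨F.toList.length, fun i hi => List.getElem?_eq_none hi⟩,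
    fun i t e => ⟨hR t (Finset.mem_toList.1 (List.mem_of_getElem? e)), notMem_empty t⟩,
    fun i j t e e' => (List.getElem?_inj (List.getElem?_eq_some_iff.1 e).1 F.nodup_toList).1
      (e.trans e'.symm)⟩
  obtain ⟨g, -, k, a1, a2⟩ := p.good _ (p.base (max m F.toList.length)
    ((Finset.range F.toList.length).filter fun i => ∃ t, v i = some t ∧ b t)) v hv ∅ default
  refine ⟨k, (le_max_left _ _).trans a1, fun t ht => ?_⟩
  obtain ⟨i, hi⟩ := List.getElem?_of_mem (Finset.mem_toList.2 ht)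
  have hl := (List.getElem?_eq_some_iff.1 hi).1
  have := a2 i (hl.trans_le (le_max_right _ _))
  simp only [mix, v, hi, Option.elim_some, Finset.mem_filter, Finset.mem_range, hl, true_and,
    Option.some_inj, exists_eq_left'] at this
  rw [yy_iff h1 hp (hR t ht) (p.hι k), this, decide_eq_true_eq]

theorem ev_all_list {α : Type} {Φ : List α → World Cond → Prop}
    (h : ∀ a, ∀ᶠ w in gen Cond, Φ a w) : ∀ᶠ w in gen Cond, ∀ a : List α, (∀ i ∈ a, w.In i) → Φ a w := by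
  filter_upwards [ev_call fun n : ℕ => ev_all_fin (n := n) (Φ := fun a => Φ (List.ofFn a))
    fun a => h _] with w hw a ha
  simpa using hw a.length a.get fun i => ha _ (List.get_mem a i)

/-- labels of points -/
inductive Lab : Type
  | row (k : ℕ) (x : List T) : Lab
  | col (r : K) : Lab

noncomputable instance : LinearOrder Lab := by
  classical exact linearOrderOfSTO WellOrderingRel

instance : WellFoundedLT Lab := ⟨WellOrderingRel.isWellOrder.wf⟩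

/-- parameters of neighbourhoods -/
abbrev Par : Type := Finset K × Finset T × ℕ

/-- the facts on generic worlds -/
structure Nice (w : World Cond) : Prop where
  gen : w.Generic
  row : ∀ k x, w.In (Lab.row k x) ↔ ∀ t ∈ x, w.In t
  col : ∀ r, w.In (Lab.col r) ↔ w.In r
  par : ∀ b : Par, w.In b ↔ (∀ r ∈ b.1, w.In r) ∧ ∀ t ∈ b.2.1, w.In t
  iota : ∀ k, w.In (ι k)
  pat : ∀ c : Finset K, (∀ r ∈ c, w.In r) → ∀ (a : K → Prop) (β : Bool),
    ∃ t : T, w.In t ∧ t.2 = β ∧ ∀ r ∈ c, yy w t r ↔ a r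
  sep : ∀ F : Finset T, (∀ t ∈ F, w.In t) → ∀ (b : T → Prop) (m : ℕ),
    ∃ k, m ≤ k ∧ ∀ t ∈ F, yy w t (ι k) ↔ b t

theorem ev_nice : ∀ᶠ w in gen Cond, Nice w := by
  have h1 : ∀ l : Lab, ∀ᶠ w in gen Cond,
      (∀ k x, l = .row k x → ∀ t ∈ x, w.In t) ∧ ∀ r, l = .col r → w.In r := by
    rintro (⟨k, x⟩ | r)
    · filter_upwards [ev_countable_set (P := Cond) x.finite_toSet.countable] with w h
      exact ⟨fun _ _ e => (by cases e; exact h), fun _ e => (by cases e)⟩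
    · filter_upwards [ev_const (P := Cond) r] with w h
      exact ⟨fun _ _ e => (by cases e), fun _ e => (by cases e; exact h)⟩
  filter_upwards [ev_generic, ev_all h1,
    ev_call fun k => ev_all_list fun x => ev_const (Lab.row k x), ev_fun Lab.col,
    ev_all fun b : Par => (ev_countable_set (P := Cond) b.1.countable_toSet).and
      (ev_countable_set (P := Cond) b.2.1.countable_toSet),
    ev_all_finset fun c : Finset K => ev_all_finset fun F : Finset T => ev_call fun m : ℕ =>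
      ev_const (P := Cond) (T := Par) (c, F, m),
    ev_call fun k => ev_const (P := Cond) (ι k), ev_pat, ev_iota] with w a1 a2 a3 a4 a5 a6 a7 a8 a9
  exact ⟨a1, fun k x => ⟨fun h => (a2 _ h).1 k x rfl, a3 k x⟩,
    fun r => ⟨fun h => (a2 _ h).2 r rfl, a4 r⟩, fun b => ⟨a5 b, fun h => a6 _ h.1 _ h.2 _⟩,
    a7, a8, a9⟩

/-- a world together with a lower bound of its generic filter -/
theorem exists_master (p : Cond) {Ψ : World Cond → Prop} (h : ∀ᶠ w in gen Cond, Ψ w) :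
    ∃ (w : World Cond) (q : Cond), Ψ w ∧ p ∈ w.G ∧ w.N.Countable ∧ (∀ p' ∈ w.G, q ≤ p') ∧
      (∀ t, t ∈ q.R ↔ w.In t) ∧ (∀ r, r ∈ q.C ↔ w.In r) ∧
      ∀ t ∈ q.R, ∀ r ∈ q.C, yy w t r ↔ q.s t r = true := by
  obtain ⟨w, h1, h2, h3, h4, h5, h6, h7, h8⟩ := exists_world p (h.and (ev_generic.and
    ((ev_of_club club_countable).and (ev_entry.and ((ev_all fun p : Cond =>
      (ev_countable_set p.cR).and (ev_countable_set p.cC)).and
        ((ev_const (ι 0)).and (ev_const (default : T))))))))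
  obtain ⟨q, a1, a2, a3⟩ := exists_lb ((countable_emb_mem h4).mono h3.mem) h1 h3.dir
  have b1 : ∀ t ∈ q.R, w.In t := fun t ht => let ⟨u, c1, c2⟩ := a2 t ht; (h6 u (h3.mem u c1)).1 t c2
  have b2 : ∀ r ∈ q.C, w.In r := fun r hr => let ⟨u, c1, c2⟩ := a3 r hr; (h6 u (h3.mem u c1)).2 r c2
  refine ⟨w, q, h2, h1, h4, a1, fun t => ⟨b1 t, fun ht => ?_⟩, fun r => ⟨b2 r, fun hr => ?_⟩,
    fun t ht r hr => ?_⟩
  · obtain ⟨u, c1, c2, -⟩ := h5 t ht _ h7
    exact (a1 u c1).1 c2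
  · obtain ⟨u, c1, -, c2⟩ := h5 _ h8 r hr
    exact (a1 u c1).2.1 c2
  · obtain ⟨u, c1, c2, c3⟩ := h5 t (b1 t ht) r (b2 r hr)
    rw [yy_iff h3 c1 c2 c3, (a1 u c1).2.2.2 t c2 r c3]

/-- two columns get the same colour -/
theorem ev_same {Φ : K → ℚ → World Cond → Prop} (h : ∀ r q, Measurable (Φ r q)) :
    ∀ᶠ w in gen Cond, ∃ r r', w.In r ∧ w.In r' ∧ r ≠ r' ∧ ∀ q, Φ r q w ↔ Φ r' q w := by
  refine ev_of_dense fun p0 => ?_
  obtain ⟨p, h0, hp, -⟩ := exists_entry p0 default default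
  have : ∀ r, ∃ u ≤ p, ∃ b : ℚ → Prop, Sem u fun w => ∀ q, Φ r q w ↔ b q := fun r => by
    obtain ⟨w, u, a1, a2, -, a3, -⟩ := exists_master p
      (ev_call fun q => (ev_forced (h r q)).and (ev_forced (h r q).not))
    refine ⟨u, a3 p a2, fun q => Φ r q w, (sem_all (Φ := fun q w' => Φ r q w' ↔ Φ r q w)
      fun q => ?_).imp ((ev_ctype ℚ).mono fun _ b1 b2 q => b2 q (b1 q))⟩
    by_cases hq : Φ r q w
    · obtain ⟨u', b1, b2⟩ := (a1 q).1 hq
      exact (b2.mono (a3 u' b1)).imp' fun _ b => iff_of_true b hq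
    · obtain ⟨u', b1, b2⟩ := (a1 q).2 hq
      exact (b2.mono (a3 u' b1)).imp' fun _ b => iff_of_false b hq
  choose u h1 b h2 using this
  obtain ⟨r, r', a1, a2, q, a3, a4⟩ := exists_compat u (fun r => ⟨_, (h1 r).1 hp⟩) b
  refine ⟨q, a3.trans ((h1 r).trans h0), (((h2 r).mono a3).and ((h2 r').mono a4)).imp ?_⟩
  filter_upwards [ev_const r, ev_const r'] with w b1 b2 b3
  exact ⟨r, r', b1, b2, a1, fun q => by rw [b3.1, b3.2, a2]⟩

end Pool.Agent.P.MP_87eb76_gt.Con
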