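import Pool.Agent.P.MP_87eb76_gt.ConSpace

/-!
The tuples of rows form a Lindelof subspace in the extension.
-/

open Set Function Filter Pool.Agent.Lib.Helper87 List

namespace Pool.Agent.P.MP_87eb76_gt.Con

theorem f2_imp {α β : Type} {R S : α → β → Prop} {x : List α} {y : List β}
    (h : ∀ a ∈ x, ∀ b, R a b → S a b) (h1 : Forall₂ R x y) : Forall₂ S x y := by
  induction h1 with
  | nil => exact .nil
  | cons a _ ih =>
    exact .cons (h _ mem_cons_self _ a) (ih fun a ha => h a (mem_cons_of_mem _ ha))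

/-- the row `t` fits the entry `a` of a pattern -/
def Fit (q : Cond) (g : Z) (c : Finset K) (a : q.R ⊕ ℕ) (t : T) : Prop :=
  a.elim (fun t' => t = t'.1) fun j => t.2 = false ∧ t ∈ q.R ∧ ∀ r ∈ c, g (j, r) = q.s t r

theorem ev_lind {I : Type} {Φ : I → World Cond → Prop} {A : I → Lab → World Cond → Prop}
    (hΦ : ∀ i, Measurable (Φ i)) (hA : ∀ i l, Measurable (A i l)) :
    ∀ᶠ w in gen Cond, (∀ l, w.In l → (∃ k x, l = .row k x) →
      ∃ i, w.In i ∧ Φ i w ∧ Nh w l fun l' => A i l' w) →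
      ∃ s : ℕ → I, w.In s ∧ ∀ k x, w.In (Lab.row k x) → ∃ n, Φ (s n) w ∧ A (s n) (.row k x) w := by
  classical
  refine ev_of_dense fun p0 => ?_
  obtain ⟨p, hp, h | h⟩ := (measurable_all_in fun l => (measurable_const (a := ∃ k x, l = .row k x)).imp
    (measurable_ex_in fun i => (hΦ i).and (meas_nh l (hA i)))).decides p0
  swap
  · exact ⟨p, hp, h.imp' fun _ a b => absurd b a⟩
  let Ψ : I → Par → Lab → World Cond → Prop := fun i b l w =>
    Φ i w ∧ ∀ l', w.In l' → Nb w b l l' → A i l' w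
  have hΨ : ∀ i b l, Measurable (Ψ i b l) := fun i b l =>
    (hΦ i).and (measurable_all_in fun l' => (meas_nb b l l').imp (hA i l'))
  obtain ⟨v, q, ⟨hv, a1, a2⟩, a3, a4, a5, a6, a7, a8⟩ := exists_master p (ev_nice.and
    (Eventually.and h (ev_all fun i => ev_all fun b => ev_all fun l => ev_forced (hΨ i b l))))
  replace a1 := a1 (v.has_of_mem a3)
  have := q.cR.to_subtype
  let U : ℕ × List (q.R ⊕ ℕ) → Set Z := fun a => {g | ∃ i b x, v.In i ∧ v.In b ∧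
    v.In (Lab.row a.1 x) ∧ Sem q (Ψ i b (.row a.1 x)) ∧ Forall₂ (Fit q g b.1) a.2 x}
  obtain ⟨q', b1, b2⟩ := exists_promise q (countable_univ (α := ℕ × List (q.R ⊕ ℕ))) U
    (by
      rintro ⟨k, π⟩ - g ⟨i, b, x, c1, c2, c3, c4, c5⟩
      refine ⟨(π.toFinset.image (Sum.elim (fun _ => 0) id)) ×ˢ b.1, fun e he =>
        (a7 _).2 (((hv.par b).1 c2).1 _ (Finset.mem_product.1 he).2), fun g' hg =>
        ⟨i, b, x, c1, c2, c3, c4, f2_imp ?_ c5⟩⟩
      rintro (t' | j) ha t d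
      · exact d
      · exact ⟨d.1, d.2.1, fun r hr => (hg (j, r) (Finset.mem_product.2 ⟨Finset.mem_image.2
          ⟨_, mem_toFinset.2 ha, rfl⟩, hr⟩)).trans (d.2.2 r hr)⟩)
    (by
      rintro ⟨k, π⟩ - E f
      choose t c1 c2 c3 using fun j => hv.pat ((E.image Prod.snd).filter v.In)
        (fun r hr => (Finset.mem_filter.1 hr).2) (fun r => f (j, r) = true) false
      have c4 : v.In (Lab.row k (π.map (Sum.elim Subtype.val t))) := (hv.row _ _).2 fun u hu => by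
        obtain ⟨a | j, -, rfl⟩ := mem_map.1 hu
        exacts [(a6 _).1 a.2, c1 j]
      obtain ⟨i, d1, d2, b, d3, d4⟩ := a1 _ c4 ⟨_, _, rfl⟩
      obtain ⟨u, d5, d6⟩ := a2 i d1 b d3 _ c4 ⟨d2, d4⟩
      refine ⟨fun e => if e.2 ∈ b.1 then q.s (t e.1) e.2 else f e,
        ⟨i, b, _, d1, d3, c4, d6.mono (a5 u d5), forall₂_map_right_iff.2 (forall₂_same.2 ?_)⟩,
        fun e he => ?_⟩
      · rintro (a | j) -
        exacts [rfl, ⟨c2 j, (a6 _).2 (c1 j), fun r hr => if_pos hr⟩]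
      · by_cases hr : e.2 ∈ b.1
        · have d7 := ((hv.par b).1 d3).1 _ hr
          simp only [hr, if_true]
          rw [Bool.eq_iff_iff, ← a8 _ ((a6 _).2 (c1 _)) _ ((a7 _).2 d7),
            c3 _ _ (Finset.mem_filter.2 ⟨Finset.mem_image_of_mem _ he, d7⟩)]
        · exact if_neg hr)
  obtain ⟨i0, c0, -⟩ := a1 _ ((hv.row 0 []).2 (by simp)) ⟨_, _, rfl⟩
  obtain ⟨s, hs⟩ := (countable_emb_mem (T := I) a4).exists_eq_range ⟨i0, c0⟩
  refine ⟨q', b1.trans ((a5 p a3).trans hp), ?_⟩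
  filter_upwards [ev_nice, ev_rows, ev_const s, ev_countable_set (countable_emb_mem (T := I) a4),
    ev_countable_set (countable_emb_mem (T := Par) a4),
    ev_countable_set (countable_emb_mem (T := Lab) a4),
    ev_all fun i => ev_all fun b => ev_all fun l => ev_sem (Ψ i b l)]
    with w hw c1 c2 c3 c4 c5 c6 ⟨u0, c7, c8⟩ _
  refine ⟨s, c2, fun k x hx => ?_⟩
  obtain ⟨u, d1, d2, d3⟩ := c1 u0 c7 x.toFinset (by simpa using (hw.row _ _).1 hx)
  have d4 : u ≤ q := d2.trans (c8.trans b1)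
  let φ : T → q.R ⊕ ℕ := fun t => if h : t ∈ q.R then .inl ⟨t, h⟩ else .inr (x.idxOf t)
  let ν : ℕ → Option T := fun j => x[j]?.filter fun t => t ∉ q.R ∧ x.idxOf t = j
  have hν : ∀ j t, ν j = some t ↔ t ∈ x ∧ t ∉ q.R ∧ x.idxOf t = j := fun j t => by
    simp only [ν, Option.filter_eq_some_iff, decide_eq_true_eq]
    refine ⟨fun h => ⟨mem_of_getElem? h.1, h.2⟩, fun h => ⟨?_, h.2⟩⟩
    rw [← h.2.2]
    exact getElem?_idxOf h.1
  obtain ⟨g, -, i, b, x0, e1, e2, e3, e4, e5⟩ := u.good _ ((d2.trans c8).2.2.1 (b2 (k, x.map φ) trivial))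
    ν ⟨⟨x.length, fun j hj => by simp [ν, hj]⟩,
      fun j t e => ⟨d3 t (mem_toFinset.2 ((hν j t).1 e).1), ((hν j t).1 e).2.1⟩,
      fun j j' t e e' => ((hν j t).1 e).2.2.symm.trans ((hν j' t).1 e').2.2⟩ ∅ default
  have e6 := c6 i (c3 i e1) b (c4 b e2) _ (c5 _ e3) q ⟨u, d1, d4⟩ e4
  obtain ⟨n, rfl⟩ : i ∈ range s := hs ▸ e1
  refine ⟨n, e6.1, e6.2 _ hx ⟨rfl, Forall₂.flip (f2_imp (fun t ht t0 e => ?_)
    (forall₂_map_left_iff.1 e5))⟩⟩
  by_cases hq : t ∈ q.R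
  · simp only [φ, hq, dif_pos, Fit, Sum.elim_inl] at e
    exact e ▸ Rel.refl _ _
  · simp only [φ, hq, dif_neg, not_false_eq_true, Fit, Sum.elim_inr, mix,
      (hν _ t).2 ⟨ht, hq, rfl⟩, Option.elim_some] at e
    refine ⟨fun r hr => ?_, fun h => by simp [e.1] at h⟩
    have e7 := (a7 r).2 (((hv.par b).1 e2).1 r hr)
    rw [yy_iff hw.gen d1 (d4.1 e.2.1) (d4.2.1 e7), d4.2.2.2 _ e.2.1 _ e7,
      yy_iff hw.gen d1 (d3 t (mem_toFinset.2 ht)) (d4.2.1 e7), e.2.2 r hr]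

end Pool.Agent.P.MP_87eb76_gt.Con
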