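import Pool.Agent.P.MP_87eb76_gt.ConLind
import Pool.Agent.P.MP_87eb76_gt.ConDefs

/-!
The space in the generic extension.
-/

open Set Function Filter Pool.Agent.Lib.Helper87 Pool.Agent.P.MP_6e1b89_gt
open Pool.Agent.P.MP_181197_gt (TychonoffIn CpIn)

namespace Pool.Agent.P.MP_87eb76_gt.Con

theorem mem_cSet {α : Type} {c : α → ZFSet.{0}} {A : Set α} {z : ZFSet} :
    z ∈ cSet c A ↔ ∃ x ∈ A, c x = z := by
  simp [cSet]

theorem mem_cSet_iff {α : Type} {c : α → ZFSet.{0}} (hc : Injective c) {A : Set α} {x : α} :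
    c x ∈ cSet c A ↔ x ∈ A := by
  simp [mem_cSet, hc.eq_iff]

theorem cSet_sUnion {α : Type} (c : α → ZFSet.{0}) (𝒰 : Set (Set α)) :
    cSet c (⋃₀ 𝒰) = (cSet (cSet c) 𝒰).sUnion := by
  ext z
  simp only [mem_cSet, ZFSet.mem_sUnion, mem_sUnion]
  constructor
  · rintro ⟨x, ⟨U, h1, h2⟩, rfl⟩
    exact ⟨_, ⟨U, h1, rfl⟩, mem_cSet.2 ⟨x, h2, rfl⟩⟩
  · rintro ⟨_, ⟨U, h1, rfl⟩, h2⟩
    obtain ⟨x, h3, rfl⟩ := mem_cSet.1 h2
    exact ⟨x, ⟨U, h1, h3⟩, rfl⟩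

theorem cNat_inj : Injective cNat := CodedInj.inj (T := ℕ)

/-- codes of rational numbers -/
noncomputable def cRat (q : ℚ) : ZFSet.{0} :=
  ZFSet.pair (cNat q.num.toNat) (ZFSet.pair (cNat (-q.num).toNat) (cNat q.den))

theorem cRat_mem {q : ℚ} {r : ℝ} : cRat q ∈ cReal r ↔ (q : ℝ) < r :=
  mem_cSet_iff (c := cRat) fun q r e => by
    simp only [cRat, ZFSet.pair_inj, cNat_inj.eq_iff] at e
    exact Rat.ext (by omega) e.2.2

theorem named_cRat (q : ℚ) : Named fun _ : World Cond => cRat q :=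
  (named_nat _).pair ((named_nat _).pair (named_nat _))

theorem named_cReal {x : World Cond → ℝ} (h : Measurable x) : Named fun w => cReal (x w) :=
  named_of_mem_iff named_cRat (Φ := fun q w => (q : ℝ) < x w) (fun _ => measurable_const.lt h)
    ((ev_ctype ℚ).mono fun w h z => by simp only [h, true_and]; exact mem_cSet)

theorem named_seq {β : World Cond → Type} {e : ∀ w, β w → ZFSet.{0}} {s : ∀ w, ℕ → β w}
    (hs : ∀ n, Named fun w => e w (s w n)) : Named fun w => cFun cNat (e w) univ (s w) :=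
  named_of_mem_iff (x := fun n w => (cNat n).pair (e w (s w n))) (fun n => (named_nat n).pair (hs n))
    (Φ := fun _ _ => True) (fun _ => measurable_const)
    ((ev_ctype ℕ).mono fun w h x => by simp [h, cFun, mem_cSet])

/-- the space -/
abbrev XX (w : World Cond) : Type := {l : Lab // w.In l}

/-- codes of points -/
noncomputable def pc (w : World Cond) (x : XX w) : ZFSet.{0} := w.ord x.1

theorem pc_inj (w : World Cond) : Injective (pc w) := fun x y h =>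
  Subtype.ext ((w.ord_inj x.2 y.2).1 h)

theorem named_XX {g : Lab → World Cond → ZFSet.{0}} (hg : ∀ l, Named (g l))
    {A : Lab → World Cond → Prop} (hA : ∀ l, Measurable (A l)) :
    Named fun w => cSet (fun x : XX w => g x.1 w) {x | A x.1 w} :=
  named_of_mem_iff hg hA (Eventually.of_forall fun w z => by simp [mem_cSet, and_left_comm])

theorem named_set {A : Lab → World Cond → Prop} (hA : ∀ l, Measurable (A l)) :
    Named fun w => cSet (pc w) {x | A x.1 w} := named_XX named_ord hA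

/-- the open sets of the extension -/
def TT (w : World Cond) : Set (Set (XX w)) :=
  {U | (∀ x ∈ U, ∃ b : Par, w.In b ∧ ∀ y : XX w, Nb w b x.1 y.1 → y ∈ U) ∧ cSet (pc w) U ∈ w.M}

theorem mem_TT {w : World Cond} {A : Lab → Prop} : {x : XX w | A x.1} ∈ TT w ↔
    (∀ l, w.In l → A l → Nh w l A) ∧ cSet (pc w) {x | A x.1} ∈ w.M := by
  simp [TT, Nh]

theorem ev_TT {A : Lab → World Cond → Prop} (hA : ∀ l, Measurable (A l)) : ∀ᶠ w in gen Cond,
    (∀ l, w.In l → A l w → Nh w l fun l' => A l' w) → {x : XX w | A x.1 w} ∈ TT w :=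
  (named_set hA).ev_mem.mono fun _ h h' => mem_TT.2 ⟨h', h⟩

theorem dec_set {w : World Cond} (U : Set (XX w)) : {x | w.ord x.1 ∈ cSet (pc w) U} = U :=
  Set.ext fun _ => mem_cSet_iff (pc_inj w)

theorem ev_name : ∀ᶠ w in gen Cond, ∀ U : Set (XX w), cSet (pc w) U ∈ w.M →
    ∃ a : Lab → Set Cond, w.In a ∧ {x | w.Hit (a x.1)} = U := by
  filter_upwards [ev_all_named (Φ := fun z w => ∃ a : Lab → Set Cond, w.In a ∧
    ∀ l, w.In l → (w.Hit (a l) ↔ w.ord l ∈ z)) fun z hz => by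
      filter_upwards [ev_const fun l : Lab => {p | Sem p fun w => w.ord l ∈ z w},
        ev_all fun l : Lab => ev_hit_sem ((named_ord l).measurable_mem hz)] with w h1 h2
        using ⟨_, h1, h2⟩] with w h U hU
  obtain ⟨a, a1, a2⟩ := h _ hU
  exact ⟨a, a1, (Set.ext fun x : XX w => a2 x.1 x.2).trans (dec_set U)⟩

theorem named_TT : Named fun w => cSet (cSet (pc w)) (TT w) := by
  refine named_of_mem_iff (I := Lab → Set Cond) (fun a => named_set fun l => measurable_hit (a l))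
    (fun a => measurable_all_in fun l => (measurable_hit (a l)).imp
      (meas_nh l fun l => measurable_hit (a l))) ?_
  filter_upwards [ev_name, ev_all fun a : Lab → Set Cond => ev_TT fun l => measurable_hit (a l)]
    with w h1 h2 z
  rw [mem_cSet]
  constructor
  · rintro ⟨U, hU, rfl⟩
    obtain ⟨a, a1, rfl⟩ := h1 U hU.2
    exact ⟨a, a1, (mem_TT.1 hU).1, rfl⟩
  · rintro ⟨a, a1, a2, rfl⟩
    exact ⟨_, h2 a a1 a2, rfl⟩

theorem ev_basic : ∀ᶠ w in gen Cond, ∀ b : Par, w.In b → ∀ l, w.In l →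
    {x : XX w | Nb w b l x.1} ∈ TT w ∧ {x : XX w | ¬ Nb w b l x.1} ∈ TT w := by
  filter_upwards [ev_nice, ev_all fun b => ev_all fun l => (ev_TT (meas_nb b l)).and
    (ev_TT fun l' => (meas_nb b l l').not)] with w hw h b hb l hl
  exact ⟨(h b hb l hl).1 fun _ _ => hw.nb_open hb hl,
    (h b hb l hl).2 fun _ hl' => hw.nb_closed hb hl hl'⟩

theorem ev_tychonoff : ∀ᶠ w in gen Cond, TychonoffIn w.M (pc w) (TT w) := by
  classical
  filter_upwards [ev_nice, ev_TT (A := fun _ _ => True) fun _ => measurable_const, ev_union,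
    ev_name, ev_basic, ev_all fun a : Lab → Set Cond => ev_all fun b : Lab → Set Cond =>
      ev_TT fun l => (measurable_hit (a l)).and (measurable_hit (b l)),
    ev_all fun b : Par => ev_all fun l => (named_XX
      (g := fun l' w => (w.ord l').pair (cReal (if Nb w b l l' then 0 else 1)))
      (fun l' => (named_ord l').pair (named_cReal (Measurable.ite
        (measurableSet_setOfPred.2 (meas_nb b l l')) measurable_const measurable_const)))
      (A := fun _ _ => True) fun _ => measurable_const).ev_mem] with w hw h1 h2 h3 h4 h5 h6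
  refine ⟨⟨h1 fun _ _ _ => ⟨_, hw.in_nat 0, fun _ _ _ => trivial⟩, fun U hU V hV => ?_,
    fun 𝒰 a1 a2 => ⟨fun x ⟨U, b1, b2⟩ => ((a1 b1).1 x b2).imp fun b hb =>
      ⟨hb.1, fun y hy => ⟨U, b1, hb.2 y hy⟩⟩, cSet_sUnion _ 𝒰 ▸ h2 _ a2⟩, fun x y hxy => ?_⟩,
    fun U hU x hx => ?_⟩
  · obtain ⟨a, a1, rfl⟩ := h3 U hU.2
    obtain ⟨b, b1, rfl⟩ := h3 V hV.2
    exact h5 a a1 b b1 fun l hl c =>
      hw.nh_and ((mem_TT.1 hU).1 l hl c.1) ((mem_TT.1 hV).1 l hl c.2)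
  · obtain ⟨n, b, a1, a2⟩ := hw.ww_sep x.2 y.2 fun e => hxy (Subtype.ext e)
    exact ⟨_, (h4 b a1 _ x.2).1, _, (h4 b a1 _ y.2).1, nb_refl _ _, nb_refl _ _,
      disjoint_left.2 fun z c1 c2 => a2 _ _ c1 c2 (hw.ww_refl n z.2)⟩
  · obtain ⟨b, a1, a2⟩ := hU.1 x hx
    refine ⟨fun y => if Nb w b x.1 y.1 then 0 else 1, ⟨h6 b a1 _ x.2, fun y ε hε => ?_⟩,
      if_pos (nb_refl _ _), fun y hy => if_neg fun c => hy (a2 y c)⟩
    by_cases c : Nb w b x.1 y.1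
    · exact ⟨_, (h4 b a1 _ x.2).1, c, fun z hz => by
        simpa [c, show Nb w b x.1 z.1 from hz] using hε⟩
    · exact ⟨_, (h4 b a1 _ x.2).2, c, fun z hz => by
        simpa [c, show ¬ Nb w b x.1 z.1 from hz] using hε⟩

theorem ev_diag : ∀ᶠ w in gen Cond, RegGDiagIn w.M (pc w) (TT w) := by
  have h : ∀ n, Named fun w => cSet (fun p : XX w × XX w => (pc w p.1).pair (pc w p.2))
      {p | WW w n p.1.1 p.2.1} := fun n =>
    named_of_mem_iff (I := Lab × Lab) (fun a => (named_ord a.1).pair (named_ord a.2))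
      (fun a => meas_ww n a.1 a.2) ((ev_in_prod Lab Lab).mono fun w hw z => by
        rw [mem_cSet]
        constructor
        · rintro ⟨p, a, rfl⟩
          exact ⟨(p.1.1, p.2.1), (hw _).2 ⟨p.1.2, p.2.2⟩, a, rfl⟩
        · rintro ⟨a, a1, a2, rfl⟩
          exact ⟨(⟨a.1, ((hw a).1 a1).1⟩, ⟨a.2, ((hw a).1 a1).2⟩), a2, rfl⟩)
  filter_upwards [ev_nice, ev_basic, (named_seq h).ev_mem] with w hw h1 h2
  refine ⟨_, h2, fun n p hp => ?_, fun n x => hw.ww_refl n x.2, fun x y hxy => ?_⟩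
  · obtain ⟨b, z, z', a1, a2, a3, a4, a5, a6⟩ := hw.ww_open p.1.2 p.2.2 hp
    exact ⟨_, (h1 b a1 z a2).1, _, (h1 b a1 z' a3).1, ⟨a4, a5⟩, fun u hu => a6 _ _ hu.1 hu.2⟩
  · obtain ⟨n, b, a1, a2⟩ := hw.ww_sep x.2 y.2 fun e => hxy (Subtype.ext e)
    exact ⟨n, _, (h1 b a1 _ x.2).1, _, (h1 b a1 _ y.2).1, ⟨nb_refl _ _, nb_refl _ _⟩,
      disjoint_left.2 fun u hu => a2 _ _ hu.1 hu.2⟩

theorem ev_lindelof : ∀ᶠ w in gen Cond,
    LindelofIn w.M (pc w) (TT w) {x | ∃ k y, x.1 = .row k y} := by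
  have : ∀ z, Named z → ∀ᶠ w in gen Cond, ∀ 𝒰 ⊆ TT w, cSet (cSet (pc w)) 𝒰 = z w →
      {x : XX w | ∃ k y, x.1 = .row k y} ⊆ ⋃₀ 𝒰 → ∃ s : ℕ → Set (XX w),
        cFun cNat (cSet (pc w)) univ s ∈ w.M ∧
          {x : XX w | ∃ k y, x.1 = .row k y} ⊆ ⋃₀ (𝒰 ∩ range s) := fun z hz => by
    obtain ⟨I, u, Φ, a1, a2, a3⟩ := hz.exists_index
    have a4 := fun i (l : Lab) => (named_ord l).measurable_mem (a1 i)
    filter_upwards [a3, ev_lind a2 a4, ev_all fun s : ℕ → I => (ev_call fun n => ev_const (s n)).and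
      (named_seq fun n => named_set fun l => (a2 (s n)).and (a4 (s n) l)).ev_mem]
      with w b1 b2 b3 𝒰 c1 c2 c3
    obtain ⟨s, d1, d2⟩ := b2 fun l hl hr => by
      obtain ⟨U, e1, e2⟩ := c3 (a := ⟨l, hl⟩) hr
      obtain ⟨i, e3, e4, e5⟩ := (b1 _).1 (c2 ▸ mem_cSet.2 ⟨U, e1, rfl⟩)
      obtain ⟨b, e6, e7⟩ := (c1 e1).1 _ e2
      exact ⟨i, e3, e4, b, e6, fun l' hl' e8 =>
        e5 ▸ (mem_cSet_iff (pc_inj w)).2 (e7 ⟨l', hl'⟩ e8)⟩
    refine ⟨_, (b3 s d1).2, ?_⟩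
    rintro ⟨l, hl⟩ ⟨k, y, rfl⟩
    obtain ⟨n, e1, e2⟩ := d2 k y hl
    obtain ⟨U, e3, e4⟩ := mem_cSet.1 (c2 ▸ (b1 _).2 ⟨_, (b3 s d1).1 n, e1, rfl⟩)
    refine ⟨_, ⟨?_, n, rfl⟩, e1, e2⟩
    simpa only [e1, true_and, ← e4, dec_set] using e3
  filter_upwards [ev_all_named (Φ := fun z w => ∀ 𝒰 ⊆ TT w, cSet (cSet (pc w)) 𝒰 = z →
    {x : XX w | ∃ k y, x.1 = .row k y} ⊆ ⋃₀ 𝒰 → ∃ s : ℕ → Set (XX w),
      cFun cNat (cSet (pc w)) univ s ∈ w.M ∧
        {x : XX w | ∃ k y, x.1 = .row k y} ⊆ ⋃₀ (𝒰 ∩ range s)) this]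
    with w h 𝒰 a1 a2 using h _ a2 𝒰 a1 rfl

theorem ev_cell : ∀ᶠ w in gen Cond, CellLindIn w.M (pc w) (TT w) := by
  filter_upwards [ev_nice, ev_lindelof, (named_set (A := fun l _ => ∃ k y, l = .row k y)
    fun _ => measurable_const).ev_mem] with w hw h1 h2 𝒰 a1 _ a2 _
  refine ⟨_, h2, h1, fun U hU => ?_⟩
  obtain ⟨x, hx⟩ := a2 U hU
  obtain ⟨b, b1, b2⟩ := (a1 hU).1 x hx
  obtain ⟨k, y, b3, b4⟩ := hw.dense x.2 ⟨b, b1, fun _ _ => id⟩
  exact ⟨⟨_, b3⟩, ⟨k, y, rfl⟩, b2 _ b4⟩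

theorem ev_big : ∀ᶠ w in gen Cond,
    ¬ ∃ f : XX w → ℝ, cFun (pc w) cReal univ f ∈ w.M ∧ Injective f := by
  have : ∀ z, Named z → ∀ᶠ w in gen Cond, z w ∈ w.M → ∀ f : XX w → ℝ,
      cFun (pc w) cReal univ f = z w → ¬ Injective f := fun z hz => by
    filter_upwards [ev_nice, ev_trans, ev_same (Φ := fun r q w => ∃ σ : Name Cond, w.In σ ∧
      (w.ord (Lab.col r)).pair (w.val σ) ∈ z w ∧ cRat q ∈ w.val σ) fun r q => measurable_ex_in
        fun σ => (((named_ord _).pair (named_val σ)).measurable_mem hz).and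
          ((named_cRat q).measurable_mem (named_val σ))]
      with w hw h1 ⟨r, r', a1, a2, a3, a4⟩ h2 f hf hi
    have key : ∀ (x : XX w) (q : ℚ), (∃ σ : Name Cond, w.In σ ∧
        (w.ord x.1).pair (w.val σ) ∈ z w ∧ cRat q ∈ w.val σ) ↔ (q : ℝ) < f x := fun x q => by
      constructor
      · rintro ⟨σ, -, b1, b2⟩
        obtain ⟨y, -, b3⟩ := mem_cSet.1 (hf ▸ b1 : _ ∈ cFun (pc w) cReal univ f)
        rw [ZFSet.pair_inj] at b3
        rwa [← b3.2, cRat_mem, pc_inj w b3.1] at b2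
      · intro hq
        have b1 : (pc w x).pair (cReal (f x)) ∈ z w := hf ▸ mem_cSet.2 ⟨x, trivial, rfl⟩
        obtain ⟨σ, b2, b3⟩ := h1 {pc w x, cReal (f x)}
          (h1 _ (h1 _ h2 _ b1) _ (by simp [ZFSet.pair])) (cReal (f x)) (by simp)
        exact ⟨σ, b2, b3 ▸ b1, b3 ▸ cRat_mem.2 hq⟩
    have := hi (a₁ := ⟨.col r, (hw.col r).2 a1⟩) (a₂ := ⟨.col r', (hw.col r').2 a2⟩)
      (eq_of_forall_rat_lt_iff_lt fun q => by rw [← key, ← key]; exact a4 q)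
    exact a3 (Lab.col.inj (Subtype.ext_iff.1 this))
  filter_upwards [ev_all_named (Φ := fun z w => z ∈ w.M → ∀ f : XX w → ℝ,
    cFun (pc w) cReal univ f = z → ¬ Injective f) this] with w h ⟨f, h1, h2⟩
  exact h _ h1 h1 f rfl h2

theorem con_main : ∃ M : Set ZFSet.{0}, TransModelZFC M ∧
    ∃ (X : Type) (c : X → ZFSet.{0}) (𝒯 : Set (Set X)), Function.Injective c ∧
      cSet c Set.univ ∈ M ∧ cSet (cSet c) 𝒯 ∈ M ∧ TychonoffIn M c 𝒯 ∧ CellLindIn M c 𝒯 ∧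
      RegGDiagIn M c 𝒯 ∧ ¬ ∃ f : X → ℝ, cFun c cReal Set.univ f ∈ M ∧ Function.Injective f := by
  obtain ⟨w, h1, h2, h3, h4, h5, h6, h7⟩ := ((ev_zfc (P := Cond)).and ((named_set
    (A := fun _ _ => True) fun _ => measurable_const).ev_mem.and (named_TT.ev_mem.and
      (ev_tychonoff.and (ev_cell.and (ev_diag.and ev_big)))))).exists
  exact ⟨w.M, h1, XX w, pc w, TT w, pc_inj w, h2, h3, h4, h5, h6, h7⟩

end Pool.Agent.P.MP_87eb76_gt.Con
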