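import Pool.Agent.P.MP_87eb76_gt.ConGen

/-!
Neighbourhoods of points and the neighbourhoods of the diagonal.
-/

open Set Function Filter Pool.Agent.Lib.Helper87 List

namespace Pool.Agent.P.MP_87eb76_gt.Con

theorem f2_trans {α β γ : Type} {R : α → β → Prop} {S : β → γ → Prop} {Q : α → γ → Prop}
    (h : ∀ a b c, R a b → S b c → Q a c) {x : List α} {y : List β} {z : List γ}
    (h1 : Forall₂ R x y) (h2 : Forall₂ S y z) : Forall₂ Q x z := by
  induction h1 generalizing z with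
  | nil => cases h2; exact .nil
  | cons a _ ih => cases h2 with
    | cons b c => exact .cons (h _ _ _ a b) (ih c)

theorem f2_left {α β : Type} {R : α → β → Prop} {x : List α} {y : List β} (h : Forall₂ R x y)
    {a : α} (ha : a ∈ x) : ∃ b ∈ y, R a b := by
  induction h with
  | nil => simp at ha
  | cons c _ ih =>
    rcases mem_cons.1 ha with rfl | ha
    · exact ⟨_, mem_cons_self, c⟩
    · exact (ih ha).imp fun b hb => ⟨mem_cons_of_mem _ hb.1, hb.2⟩

theorem f2_right {α β : Type} {R : α → β → Prop} {x : List α} {y : List β} (h : Forall₂ R x y)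
    {b : β} (hb : b ∈ y) : ∃ a ∈ x, R a b :=
  f2_left (R := flip R) (Forall₂.flip h) hb

theorem meas_f2 {W α β : Type*} [MeasurableSpace W] {R : W → α → β → Prop}
    (h : ∀ a b, Measurable fun w => R w a b) (x : List α) (y : List β) :
    Measurable fun w => Forall₂ (R w) x y := by
  induction x generalizing y with
  | nil => simp
  | cons a x ih =>
    cases y with
    | nil => simp
    | cons b y => simpa only [forall₂_cons] using (h a b).and (ih y)

theorem meas_fin {W α : Type*} [MeasurableSpace W] {E : Set α} (hE : E.Finite) {Φ : α → W → Prop}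
    (h : ∀ a, Measurable (Φ a)) : Measurable fun w => ∀ a ∈ E, Φ a w := by
  have := hE.to_subtype
  simpa only [Subtype.forall] using Measurable.forall fun a : E => h a

/-- `t'` is close to the row `t` -/
def Rel (w : World Cond) (c : Finset K) (t t' : T) : Prop :=
  (∀ r ∈ c, yy w t r ↔ yy w t' r) ∧ (t.2 = true → t' = t)

/-- the basic neighbourhoods -/
def Nb (w : World Cond) (b : Par) : Lab → Lab → Prop
  | .row k x, .row k' x' => k' = k ∧ Forall₂ (Rel w b.1) x x'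
  | .row _ _, .col _ => False
  | .col r, .row k x =>
    b.2.2 ≤ k ∧ (∀ t ∈ x, yy w t r ↔ yy w t (ι k)) ∧ ∀ t ∈ b.2.1, t.2 = true → t ∈ x
  | .col r, .col r' => r' = r

theorem meas_nb (b : Par) (l l' : Lab) : Measurable fun w => Nb w b l l' := by
  rcases l with ⟨k, x⟩ | r <;> rcases l' with ⟨k', x'⟩ | r'
  · exact measurable_const.and (meas_f2 (fun t t' => (meas_fin b.1.finite_toSet fun r =>
      (meas_yy t r).iff (meas_yy t' r)).and measurable_const) x x')
  · exact measurable_const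
  · exact measurable_const.and ((meas_fin x'.finite_toSet fun t =>
      (meas_yy t r).iff (meas_yy t _)).and measurable_const)
  · exact measurable_const

variable {w : World Cond}

theorem Rel.refl (c : Finset K) (t : T) : Rel w c t t := ⟨fun _ _ => Iff.rfl, fun _ => rfl⟩

theorem Rel.trans {c : Finset K} (a b d : T) (h : Rel w c a b) (h' : Rel w c b d) : Rel w c a d :=
  ⟨fun r hr => (h.1 r hr).trans (h'.1 r hr), fun e => by
    have := h.2 e
    subst this
    exact h'.2 e⟩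

theorem nb_refl (b : Par) (l : Lab) : Nb w b l l := by
  rcases l with ⟨k, x⟩ | r
  exacts [⟨rfl, forall₂_same.2 fun t _ => Rel.refl _ t⟩, rfl]

theorem Nb.mono {b b' : Par} {l l' : Lab} (h : Nb w b' l l') (hb : b ≤ b') : Nb w b l l' := by
  rcases l with ⟨k, x⟩ | r <;> rcases l' with ⟨k', x'⟩ | r'
  · exact ⟨h.1, h.2.imp fun _ _ a => ⟨fun r hr => a.1 r (hb.1 hr), a.2⟩⟩
  · exact h
  · exact ⟨hb.2.2.trans h.1, h.2.1, fun t ht => h.2.2 t (hb.2.1 ht)⟩
  · exact h

/-- `A` is a neighbourhood of `l` -/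
def Nh (w : World Cond) (l : Lab) (A : Lab → Prop) : Prop :=
  ∃ b : Par, w.In b ∧ ∀ l', w.In l' → Nb w b l l' → A l'

theorem meas_nh (l : Lab) {A : Lab → World Cond → Prop} (h : ∀ l, Measurable (A l)) :
    Measurable fun w => Nh w l fun l' => A l' w :=
  measurable_ex_in fun b => measurable_all_in fun l' => (meas_nb b l l').imp (h l')

theorem Nh.mono {l : Lab} {A B : Lab → Prop} (h : Nh w l A) (h' : ∀ l, w.In l → A l → B l) :
    Nh w l B := let ⟨b, h1, h2⟩ := h; ⟨b, h1, fun l' a1 a2 => h' l' a1 (h2 l' a1 a2)⟩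

theorem Nice.nh_and (hw : Nice w) {l : Lab} {A B : Lab → Prop} (h : Nh w l A) (h' : Nh w l B) :
    Nh w l fun l' => A l' ∧ B l' := by
  classical
  obtain ⟨b, a1, a2⟩ := h
  obtain ⟨b', b1, b2⟩ := h'
  rw [hw.par] at a1 b1
  exact ⟨b ⊔ b', (hw.par _).2 ⟨fun r hr => (Finset.mem_union.1 hr).elim (a1.1 r) (b1.1 r),
    fun r hr => (Finset.mem_union.1 hr).elim (a1.2 r) (b1.2 r)⟩,
    fun l' c1 c2 => ⟨a2 l' c1 (c2.mono le_sup_left), b2 l' c1 (c2.mono le_sup_right)⟩⟩

theorem Nice.nh_row (hw : Nice w) {k : ℕ} {x : List T} {A : Lab → Prop} (c : Finset K)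
    (hc : ∀ r ∈ c, w.In r) (h : ∀ x', Forall₂ (Rel w c) x x' → A (.row k x')) :
    Nh w (.row k x) A := by
  refine ⟨(c, ∅, 0), (hw.par _).2 ⟨hc, by simp⟩, ?_⟩
  rintro (⟨k', x'⟩ | r) - a
  · exact a.1 ▸ h x' a.2
  · exact a.elim

theorem Nice.nh_col (hw : Nice w) {r : K} {A : Lab → Prop} (F : Finset T) (m : ℕ)
    (hF : ∀ t ∈ F, w.In t) (h0 : A (.col r)) (h : ∀ k x, m ≤ k → (∀ t ∈ x, yy w t r ↔ yy w t (ι k)) →
      (∀ t ∈ F, t.2 = true → t ∈ x) → A (.row k x)) : Nh w (.col r) A := by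
  refine ⟨(∅, F, m), (hw.par _).2 ⟨by simp, hF⟩, ?_⟩
  rintro (⟨k', x'⟩ | r') - a
  · exact h _ _ a.1 a.2.1 a.2.2
  · exact (show r' = r from a) ▸ h0

open Classical in
theorem Nice.pair_in (hw : Nice w) {r : K} (hr : w.In r) (k : ℕ) :
    ∀ r' ∈ ({r, ι k} : Finset K), w.In r' := by
  simp [hr, hw.iota]

open Classical in
theorem col_iff {r : K} {k : ℕ} {x x' : List T} (h : Forall₂ (Rel w {r, ι k}) x x') :
    (∀ t ∈ x, yy w t r ↔ yy w t (ι k)) ↔ ∀ t ∈ x', yy w t r ↔ yy w t (ι k) := by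
  constructor <;> intro a t ht
  · obtain ⟨t', b1, b2⟩ := f2_right h ht
    rw [← b2.1 r (by simp), ← b2.1 (ι k) (by simp), a t' b1]
  · obtain ⟨t', b1, b2⟩ := f2_left h ht
    rw [b2.1 r (by simp), b2.1 (ι k) (by simp), a t' b1]

theorem Nice.nb_open (hw : Nice w) {b : Par} (hb : w.In b) {l l' : Lab} (hl : w.In l)
    (h : Nb w b l l') : Nh w l' (Nb w b l) := by
  rcases l with ⟨k, x⟩ | r <;> rcases l' with ⟨k', x'⟩ | r'
  · exact hw.nh_row b.1 ((hw.par b).1 hb).1 fun x'' a => ⟨h.1, f2_trans Rel.trans h.2 a⟩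
  · exact h.elim
  · refine hw.nh_row _ (hw.pair_in ((hw.col r).1 hl) k') fun x'' a =>
      ⟨h.1, (col_iff a).1 h.2.1, fun t b1 b2 => ?_⟩
    obtain ⟨t', b3, b4⟩ := f2_left a (h.2.2 t b1 b2)
    exact b4.2 b2 ▸ b3
  · exact ⟨b, hb, fun _ _ a => (show r' = r from h) ▸ a⟩

theorem Nice.sep_row (hw : Nice w) {t t' : T} (ht : w.In t) (ht' : w.In t') (h : t ≠ t') :
    ∃ k, ¬ (yy w t (ι k) ↔ yy w t' (ι k)) := by
  classical
  obtain ⟨k, -, a⟩ := hw.sep {t, t'} (by simp [ht, ht']) (· = t) 0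
  exact ⟨k, by simp [a t, a t', h.symm]⟩

theorem Nice.sep_col (hw : Nice w) {r r' : K} (hr : w.In r) (hr' : w.In r') (h : r ≠ r') :
    ∃ t : T, w.In t ∧ t.2 = true ∧ ¬ (yy w t r ↔ yy w t r') := by
  classical
  obtain ⟨t, a1, a2, a⟩ := hw.pat {r, r'} (by simp [hr, hr']) (· = r) true
  exact ⟨t, a1, a2, by simp [a r, a r', h.symm]⟩

theorem Nice.rel_closed (hw : Nice w) {c : Finset K} (hc : ∀ r ∈ c, w.In r) {x x' : List T}
    (hx : ∀ t ∈ x, w.In t) (hx' : ∀ t ∈ x', w.In t) (h : ¬ Forall₂ (Rel w c) x x') :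
    ∃ c' : Finset K, (∀ r ∈ c', w.In r) ∧
      ∀ x'', Forall₂ (Rel w c') x' x'' → ¬ Forall₂ (Rel w c) x x'' := by
  classical
  induction x generalizing x' with
  | nil => exact ⟨c, hc, fun x'' a b => by cases b; cases a; exact h .nil⟩
  | cons t x ih =>
    cases x' with
    | nil => exact ⟨c, hc, fun x'' a b => by cases b; cases a⟩
    | cons t' x' =>
      by_cases h1 : Rel w c t t'
      · obtain ⟨c', a1, a2⟩ := ih (fun u hu => hx u (mem_cons_of_mem _ hu))
          (fun u hu => hx' u (mem_cons_of_mem _ hu)) fun a => h (.cons h1 a)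
        refine ⟨c', a1, fun x'' a b => ?_⟩
        cases b with
        | cons _ b => cases a with
          | cons _ a => exact a2 _ a b
      · obtain ⟨k, hk⟩ := hw.sep_row (hx t mem_cons_self) (hx' t' mem_cons_self)
          fun e => h1 (e ▸ Rel.refl c t)
        refine ⟨insert (ι k) c, by simpa [hw.iota] using hc, fun x'' a b => ?_⟩
        cases b with
        | cons b _ => cases a with
          | cons a _ =>
            refine h1 ⟨fun r hr => (b.1 r hr).trans (a.1 r (by simp [hr])).symm, fun e => ?_⟩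
            exact absurd (b.2 e ▸ (a.1 (ι k) (by simp)).symm) hk

theorem Nice.nb_closed (hw : Nice w) {b : Par} (hb : w.In b) {l l' : Lab} (hl : w.In l)
    (hl' : w.In l') (h : ¬ Nb w b l l') : Nh w l' fun z => ¬ Nb w b l z := by
  classical
  rcases l with ⟨k, x⟩ | r <;> rcases l' with ⟨k', x'⟩ | r'
  · by_cases hk : k' = k
    · obtain ⟨c, a1, a2⟩ := hw.rel_closed ((hw.par b).1 hb).1 ((hw.row _ _).1 hl)
        ((hw.row _ _).1 hl') fun a => h ⟨hk, a⟩
      exact hw.nh_row c a1 fun x'' a3 a4 => a2 _ a3 a4.2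
    · exact hw.nh_row ∅ (by simp) fun x'' _ a => hk a.1
  · exact hw.nh_col ∅ (k + 1) (by simp) h fun k' x' a _ _ a' => by have := a'.1; omega
  · by_cases h1 : ∀ t ∈ b.2.1, t.2 = true → t ∈ x'
    · exact hw.nh_row _ (hw.pair_in ((hw.col r).1 hl) k') fun x'' a a' =>
        h ⟨a'.1, (col_iff a).2 a'.2.1, h1⟩
    · push Not at h1
      obtain ⟨t, a1, a2, a3⟩ := h1
      obtain ⟨j, -, a4⟩ := hw.sep (insert t x'.toFinset)
        (by simpa [((hw.par b).1 hb).2 t a1] using (hw.row _ _).1 hl') (· = t) 0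
      refine hw.nh_row {ι j} (by simp [hw.iota]) fun x'' a a' => ?_
      obtain ⟨t', b1, b2⟩ := f2_right a (a'.2.2 t a1 a2)
      have := b2.1 (ι j) (by simp)
      rw [a4 t (by simp), a4 t' (by simp [b1])] at this
      exact a3 (this.2 rfl ▸ b1)
  · obtain ⟨t, a1, a2, a3⟩ := hw.sep_col ((hw.col r).1 hl) ((hw.col r').1 hl') (Ne.symm h)
    exact hw.nh_col {t} 0 (by simpa) h fun k x _ b1 b2 b3 =>
      a3 ((b3.2.1 t (b2 t (by simp) a2)).trans (b1 t (b2 t (by simp) a2)).symm)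

/-- the tuples of rows are dense -/
theorem Nice.dense (hw : Nice w) {l : Lab} (hl : w.In l) {A : Lab → Prop} (h : Nh w l A) :
    ∃ k x, w.In (Lab.row k x) ∧ A (.row k x) := by
  obtain ⟨b, h1, h2⟩ := h
  rcases l with ⟨k, x⟩ | r
  · exact ⟨k, x, hl, h2 _ hl (nb_refl _ _)⟩
  · have h3 := ((hw.par b).1 h1).2
    obtain ⟨k, a1, a2⟩ := hw.sep b.2.1 h3 (fun t => yy w t r) b.2.2
    have h4 := (hw.row k b.2.1.toList).2 (by simpa using h3)
    exact ⟨k, _, h4, h2 _ h4 ⟨a1, fun t ht => (a2 t (by simpa using ht)).symm,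
      fun t ht _ => by simpa using ht⟩⟩

/-- rows which agree on the first `n` distinguished columns -/
def Ag (w : World Cond) (n : ℕ) (t t' : T) : Prop := ∀ j < n, yy w t (ι j) ↔ yy w t' (ι j)

/-- tuples which agree on the first `n` distinguished columns -/
def W1 (w : World Cond) (n : ℕ) : Lab → Lab → Prop
  | .row k x, .row k' x' => k' = k ∧ Forall₂ (Ag w n) x x'
  | _, _ => False

/-- the neighbourhoods of the diagonal -/
def WW (w : World Cond) (n : ℕ) (l l' : Lab) : Prop :=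
  W1 w n l l' ∨ ∃ r, w.In r ∧ Nb w (∅, ∅, n) (.col r) l ∧ Nb w (∅, ∅, n) (.col r) l'

theorem meas_ww (n : ℕ) (l l' : Lab) : Measurable fun w => WW w n l l' := by
  refine Measurable.or ?_ (measurable_ex_in fun r => (meas_nb _ _ _).and (meas_nb _ _ _))
  rcases l with ⟨k, x⟩ | r <;> rcases l' with ⟨k', x'⟩ | r'
  · exact measurable_const.and (meas_f2 (fun t t' => meas_fin (finite_lt_nat n) fun j =>
      (meas_yy t _).iff (meas_yy t' _)) x x')
  all_goals exact measurable_const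

theorem Nice.ww_refl (hw : Nice w) (n : ℕ) {l : Lab} (hl : w.In l) : WW w n l l := by
  rcases l with ⟨k, x⟩ | r
  exacts [Or.inl ⟨rfl, forall₂_same.2 fun _ _ _ _ => Iff.rfl⟩, Or.inr ⟨r, (hw.col r).1 hl, rfl, rfl⟩]

/-- the parameter consisting of the first `n` distinguished columns -/
noncomputable def bι (n : ℕ) : Par := ((Finset.range n).map ⟨ι, ι_inj⟩, ∅, 0)

theorem Nice.in_bι (hw : Nice w) (n : ℕ) : w.In (bι n) :=
  (hw.par _).2 ⟨by simp [bι, hw.iota], by simp [bι]⟩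

theorem ag_of_rel {n : ℕ} {x x' : List T} (h : Forall₂ (Rel w (bι n).1) x x') :
    Forall₂ (Ag w n) x x' :=
  h.imp fun _ _ a j hj => a.1 (ι j) (Finset.mem_map.2 ⟨j, Finset.mem_range.2 hj, rfl⟩)

theorem ag_trans {n : ℕ} {x y z : List T} (h : Forall₂ (Ag w n) x y) (h' : Forall₂ (Ag w n) y z) :
    Forall₂ (Ag w n) x z := f2_trans (fun _ _ _ a b j hj => (a j hj).trans (b j hj)) h h'

theorem ag_symm {n : ℕ} {x y : List T} (h : Forall₂ (Ag w n) x y) : Forall₂ (Ag w n) y x :=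
  Forall₂.flip (h.imp fun _ _ a j hj => (a j hj).symm)

theorem Nice.in_nat (hw : Nice w) (n : ℕ) : w.In ((∅, ∅, n) : Par) := (hw.par _).2 (by simp)

theorem Nice.ww_open (hw : Nice w) {n : ℕ} {l l' : Lab} (hl : w.In l) (hl' : w.In l')
    (h : WW w n l l') : ∃ (b : Par) (z z' : Lab), w.In b ∧ w.In z ∧ w.In z' ∧ Nb w b z l ∧
      Nb w b z' l' ∧ ∀ u u', Nb w b z u → Nb w b z' u' → WW w n u u' := by
  rcases h with h | ⟨r, h1, h2, h3⟩
  · refine ⟨bι n, l, l', hw.in_bι n, hl, hl', nb_refl _ _, nb_refl _ _, fun u u' a a' => Or.inl ?_⟩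
    rcases l with ⟨k, x⟩ | r <;> rcases l' with ⟨k', x'⟩ | r' <;> try exact h.elim
    rcases u with ⟨j, y⟩ | r <;> rcases u' with ⟨j', y'⟩ | r' <;> try exact a.elim
    · exact ⟨a'.1.trans (h.1.trans a.1.symm),
        ag_trans (ag_symm (ag_of_rel a.2)) (ag_trans h.2 (ag_of_rel a'.2))⟩
    · exact a'.elim
  · exact ⟨_, _, _, hw.in_nat n, (hw.col r).2 h1, (hw.col r).2 h1, h2, h3,
      fun u u' a a' => Or.inr ⟨r, h1, a, a'⟩⟩

theorem WW.symm {n : ℕ} {l l' : Lab} (h : WW w n l l') : WW w n l' l := by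
  refine h.imp (fun h => ?_) fun ⟨r, a, b, c⟩ => ⟨r, a, c, b⟩
  rcases l with ⟨k, x⟩ | r <;> rcases l' with ⟨k', x'⟩ | r' <;> try exact h.elim
  exact ⟨h.1.symm, ag_symm h.2⟩

theorem Nice.eq_of_ag (hw : Nice w) {x x' : List T} (hx : ∀ t ∈ x, w.In t) (hx' : ∀ t ∈ x', w.In t)
    (h : ∀ n, Forall₂ (Ag w n) x x') : x = x' := by
  induction x generalizing x' with
  | nil => cases h 0; rfl
  | cons t x ih =>
    cases x' with
    | nil => cases h 0
    | cons t' x' =>
      simp only [forall₂_cons] at h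
      rw [ih (fun u hu => hx u (mem_cons_of_mem _ hu)) (fun u hu => hx' u (mem_cons_of_mem _ hu))
        fun n => (h n).2]
      by_contra hc
      obtain ⟨k, hk⟩ := hw.sep_row (hx t mem_cons_self) (hx' t' mem_cons_self)
        fun e => hc (e ▸ rfl)
      exact hk ((h (k + 1)).1 k (by omega))

theorem Nice.ww_sep (hw : Nice w) {l l' : Lab} (hl : w.In l) (hl' : w.In l') (h : l ≠ l') :
    ∃ (n : ℕ) (b : Par), w.In b ∧ ∀ u u', Nb w b l u → Nb w b l' u' → ¬ WW w n u u' := by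
  have key : ∀ k x r u u', Nb w (∅, ∅, k + 1) (.row k x) u → Nb w (∅, ∅, k + 1) (.col r) u' →
      ¬ WW w (k + 1) u u' := by
    rintro k x r (⟨j, y⟩ | s) (⟨j', y'⟩ | s') a a' (c | ⟨z, -, c, -⟩) <;> try exact a.elim
    · have := a.1; have := a'.1; have := c.1; simp only at *; omega
    · have := a.1; have := c.1; simp only at *; omega
    · exact c.elim
    · have := a.1; have := c.1; simp only at *; omega
  rcases l with ⟨k, x⟩ | r <;> rcases l' with ⟨k', x'⟩ | r'
  · have : ∃ n, ¬ (k' = k ∧ Forall₂ (Ag w n) x x') := by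
      by_contra hc
      push Not at hc
      exact h (by rw [(hc 0).1, hw.eq_of_ag ((hw.row _ _).1 hl) ((hw.row _ _).1 hl') fun n => (hc n).2])
    obtain ⟨n, hn⟩ := this
    refine ⟨max n (k + 1), bι n, hw.in_bι n, ?_⟩
    rintro (⟨j, y⟩ | s) (⟨j', y'⟩ | s') a a' c <;> try exact a.elim
    · rcases c with c | ⟨z, -, c, -⟩
      · exact hn ⟨a'.1.symm.trans (c.1.trans a.1), ag_trans (ag_of_rel a.2) (ag_trans
          (c.2.imp fun _ _ d i hi => d i (hi.trans_le (le_max_left _ _))) (ag_symm (ag_of_rel a'.2)))⟩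
      · have := a.1; have := c.1; simp only at *; omega
    · exact a'.elim
  · exact ⟨_, _, hw.in_nat _, key k x r'⟩
  · exact ⟨_, _, hw.in_nat _, fun u u' a a' c => key k' x' r u' u a' a c.symm⟩
  · obtain ⟨t, a1, a2, a3⟩ := hw.sep_col ((hw.col r).1 hl) ((hw.col r').1 hl') fun e => h (e ▸ rfl)
    refine ⟨0, (∅, {t}, 0), (hw.par _).2 (by simpa), fun u u' a a' c => a3 ?_⟩
    have b1 : ∀ r z u, Nb w (∅, {t}, 0) (.col r) u → Nb w (∅, ∅, 0) (.col z) u →
        (yy w t r ↔ yy w t z) := by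
      rintro r z (⟨j, y⟩ | s) d d'
      · exact (d.2.1 t (d.2.2 t (by simp) a2)).trans (d'.2.1 t (d.2.2 t (by simp) a2)).symm
      · rw [← show s = r from d, ← show s = z from d']
    rcases c with c | ⟨z, -, c, c'⟩
    · rcases u with ⟨j, y⟩ | s <;> rcases u' with ⟨j', y'⟩ | s' <;> try exact c.elim
      exact (a.2.1 t (a.2.2 t (by simp) a2)).trans (c.1 ▸ a'.2.1 t (a'.2.2 t (by simp) a2)).symm
    · exact (b1 _ _ _ a c).trans (b1 _ _ _ a' c').symm

end Pool.Agent.P.MP_87eb76_gt.Con
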