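import Mathlib

open Cardinal Set Function

namespace Pool.Agent.P.MP_87eb76_gt

/-- Greedy transfinite choice of distinct representatives. -/
theorem exists_inj_choice {J Y : Type} (S : J → Set Y) (h : ∀ j, #J ≤ #(S j)) :
    ∃ f : J → Y, Injective f ∧ ∀ j, f j ∈ S j := by
  classical
  obtain ⟨lo, wf, ho⟩ := Cardinal.exists_ord_eq_type_lt J
  have step : ∀ (j : J) (g : ∀ i, i < j → Y), ∃ y ∈ S j, ∀ i (hi : i < j), g i hi ≠ y := by
    intro j g
    by_contra hcon
    push Not at hcon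
    have hsub : S j ⊆ range (fun i : Iio j => g i.1 i.2) := by
      intro y hy
      obtain ⟨i, hi, e⟩ := hcon y hy
      exact ⟨⟨i, hi⟩, e⟩
    have h1 : #(S j) ≤ #(Iio j) := (mk_le_mk_of_subset hsub).trans mk_range_le
    have h2 : #(Iio j) < #J := Cardinal.mk_Iio_lt j ho
    exact absurd ((h j).trans h1) (not_le.2 h2)
  choose nxt hn1 hn2 using step
  let f : J → Y := (wellFounded_lt (α := J)).fix nxt
  have hf : ∀ j, f j = nxt j (fun i _ => f i) := fun j => (wellFounded_lt (α := J)).fix_eq nxt j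
  refine ⟨f, ?_, fun j => by rw [hf j]; exact hn1 _ _⟩
  have hlt : ∀ i j, i < j → f i ≠ f j := by
    intro i j hij
    have := hn2 j (fun i _ => f i) i hij
    rwa [← hf j] at this
  intro i j hij
  rcases lt_trichotomy i j with h1 | h1 | h1
  · exact absurd hij (hlt i j h1)
  · exact h1
  · exact absurd hij.symm (hlt j i h1)

theorem mk_cantor : #(ℕ → Bool) = 𝔠 := by
  simp

theorem mk_closed_le : #{C : Set (ℕ → Bool) // IsClosed C} ≤ 𝔠 := by
  obtain ⟨b, hbc, -, hb⟩ := TopologicalSpace.exists_countable_basis (ℕ → Bool)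
  have : Countable b := hbc.to_subtype
  let φ : {C : Set (ℕ → Bool) // IsClosed C} → Set b := fun C => {u | Disjoint u.1 C.1}
  have key : ∀ C C' : {C : Set (ℕ → Bool) // IsClosed C}, φ C = φ C' → C'.1 ⊆ C.1 := by
    intro C C' e x hx
    by_contra hx'
    obtain ⟨u, hu, hxu, huC⟩ := hb.exists_subset_of_mem_open (u := C.1ᶜ) hx' C.2.isOpen_compl
    have h1 : (⟨u, hu⟩ : b) ∈ φ C := subset_compl_iff_disjoint_right.1 huC
    rw [e] at h1
    exact disjoint_left.1 h1 hxu hx
  have hφ : Injective φ := fun C C' e =>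
    Subtype.ext (Subset.antisymm (key C' C e.symm) (key C C' e))
  calc #{C : Set (ℕ → Bool) // IsClosed C} ≤ #(Set b) := mk_le_of_injective hφ
    _ = 2 ^ #b := mk_set
    _ ≤ 2 ^ ℵ₀ := power_le_power_left two_ne_zero mk_le_aleph0
    _ = 𝔠 := two_power_aleph0

/-- A Bernstein-type set coding all finite subsets of the Cantor space. -/
theorem exists_bernstein : ∃ (D : Set (ℕ → Bool)) (σ : (ℕ → Bool) → Finset (ℕ → Bool)),
    (∀ F, ∃ d ∈ D, σ d = F) ∧ ∀ K : Set (ℕ → Bool), IsClosed K → K ⊆ D → K.Countable := by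
  classical
  have hP : PolishSpace (ℕ → Bool) := ⟨⟩
  let A := {C : Set (ℕ → Bool) // IsClosed C ∧ ¬ C.Countable}
  let S : A ⊕ Finset (ℕ → Bool) → Set (ℕ → Bool) := Sum.elim (fun C => C.1) (fun _ => univ)
  have hA : #A ≤ 𝔠 := by
    refine le_trans (mk_le_of_injective
      (f := fun C : A => (⟨C.1, C.2.1⟩ : {C : Set (ℕ → Bool) // IsClosed C})) ?_) mk_closed_le
    intro C C' e
    exact Subtype.ext (Subtype.mk.inj e)
  have hJ : #(A ⊕ Finset (ℕ → Bool)) ≤ 𝔠 := by
    rw [mk_sum, lift_id, lift_id, mk_finset_of_infinite, mk_cantor]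
    calc #A + 𝔠 ≤ 𝔠 + 𝔠 := by gcongr
      _ = 𝔠 := continuum_add_self
  have hS : ∀ j, #(A ⊕ Finset (ℕ → Bool)) ≤ #(S j) := by
    intro j
    refine hJ.trans ?_
    rcases j with C | F
    · obtain ⟨g, hg, -, hinj⟩ := C.2.1.exists_nat_bool_injection_of_not_countable C.2.2
      rw [← mk_cantor]
      exact mk_le_of_injective (f := fun x => (⟨g x, hg ⟨x, rfl⟩⟩ : C.1))
        (fun x y e => hinj (congrArg Subtype.val e))
    · simp [S]
  obtain ⟨f, hf, hfS⟩ := exists_inj_choice S hS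
  have hinj : Injective (f ∘ Sum.inr) := hf.comp Sum.inr_injective
  refine ⟨range (f ∘ Sum.inr), invFun (f ∘ Sum.inr), fun F => ⟨_, ⟨F, rfl⟩, ?_⟩, ?_⟩
  · exact leftInverse_invFun hinj F
  · intro K hK hKD
    by_contra hunc
    obtain ⟨F, hF⟩ := hKD (hfS (Sum.inl ⟨K, hK, hunc⟩))
    exact Sum.inr_ne_inl (hf hF)

/-- A sequence in `2 ^ Cantor` that visits every basic open set infinitely often. -/
theorem exists_dense_seq : ∃ q : ℕ → (ℕ → Bool) → Bool,
    ∀ (p : (ℕ → Bool) → Bool) (F : Finset (ℕ → Bool)) (m : ℕ),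
      ∃ k, m ≤ k ∧ ∀ y ∈ F, q k y = p y := by
  classical
  let T := Σ n : ℕ, ((Fin n → Bool) → Bool)
  have : Countable T := inferInstance
  have : Nonempty T := ⟨⟨0, fun _ => true⟩⟩
  obtain ⟨e, he⟩ := exists_surjective_nat T
  let ev : T → (ℕ → Bool) → Bool := fun t y => t.2 (fun i => y i)
  refine ⟨fun k => ev (e (Nat.unpair k).1), fun p F m => ?_⟩
  have hsep : ∀ᶠ n in Filter.atTop, ∀ y ∈ F, ∀ y' ∈ F, (∀ i < n, y i = y' i) → y = y' := by
    rw [Filter.eventually_all_finset]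
    intro y _
    rw [Filter.eventually_all_finset]
    intro y' _
    by_cases hyy : y = y'
    · exact Filter.Eventually.of_forall fun _ _ => hyy
    · obtain ⟨i, hi⟩ := ne_iff.1 hyy
      filter_upwards [Filter.eventually_gt_atTop i] with n hn h
      exact absurd (h i hn) hi
  obtain ⟨n, hn⟩ := hsep.exists
  let g : (Fin n → Bool) → Bool := fun s =>
    if h : ∃ y ∈ F, (fun i : Fin n => y i) = s then p h.choose else true
  obtain ⟨a, ha⟩ := he ⟨n, g⟩
  refine ⟨Nat.pair a m, Nat.right_le_pair a m, fun y hy => ?_⟩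
  simp only [Nat.unpair_pair, ha, ev, g]
  have hex : ∃ y' ∈ F, (fun i : Fin n => y' i) = (fun i : Fin n => y i) := ⟨y, hy, rfl⟩
  rw [dif_pos hex]
  congr 1
  exact hn _ hex.choose_spec.1 _ hy fun i hi => congrFun hex.choose_spec.2 ⟨i, hi⟩

end Pool.Agent.P.MP_87eb76_gt
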