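import Mathlib
import Pool.Agent.P.MP_87eb76_gt.SetTheory

open Cardinal Set Function Topology

namespace Pool.Agent.P.MP_87eb76_gt

/-- The underlying set: countably many copies of the Cantor set, and `2 ^ Cantor` on top. -/
inductive X : Type
  | low (k : ℕ) (y : ℕ → Bool) : X
  | top (p : (ℕ → Bool) → Bool) : X

section

variable (D : Set (ℕ → Bool)) (σ : (ℕ → Bool) → Finset (ℕ → Bool))
  (q : ℕ → (ℕ → Bool) → Bool)

/-- Basic neighbourhoods of the top points. -/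
def N (p : (ℕ → Bool) → Bool) (F : Finset (ℕ → Bool)) (m : ℕ) : Set X :=
  {x | x = X.top p ∨ ∃ k d, x = X.low k d ∧ m ≤ k ∧ d ∈ D ∧ F ⊆ σ d ∧ ∀ y ∈ σ d, q k y = p y}

/-- Cylinders in the `k`-th copy of the Cantor set. -/
def G (k : ℕ) (y : ℕ → Bool) (m : ℕ) : Set X :=
  {x | ∃ y', x = X.low k y' ∧ ∀ i < m, y' i = y i}

theorem low_mem_N {p F m k d} : X.low k d ∈ N D σ q p F m ↔
    m ≤ k ∧ d ∈ D ∧ F ⊆ σ d ∧ ∀ y ∈ σ d, q k y = p y := by
  constructor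
  · rintro (h | ⟨k', d', h, h'⟩)
    · cases h
    · cases h
      exact h'
  · intro h
    exact Or.inr ⟨k, d, rfl, h⟩

theorem top_mem_N {p F m p'} : X.top p' ∈ N D σ q p F m ↔ p' = p := by
  constructor
  · rintro (h | ⟨k', d', h, h'⟩)
    · cases h
      rfl
    · cases h
  · rintro rfl
    exact Or.inl rfl

theorem low_mem_G {k y m k' y'} : X.low k' y' ∈ G k y m ↔ k' = k ∧ ∀ i < m, y' i = y i := by
  constructor
  · rintro ⟨y'', h, h'⟩
    cases h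
    exact ⟨rfl, h'⟩
  · rintro ⟨rfl, h⟩
    exact ⟨y', rfl, h⟩

theorem top_notMem_G {k y m p} : X.top p ∉ G k y m := by
  rintro ⟨y'', h, -⟩
  cases h

theorem G_mono {k y m m'} (h : m ≤ m') : G k y m' ⊆ G k y m := by
  rintro x ⟨y', rfl, h'⟩
  exact ⟨y', rfl, fun i hi => h' i (lt_of_lt_of_le hi h)⟩

theorem N_mono {p F F' m m'} (hF : F ⊆ F') (h : m ≤ m') : N D σ q p F' m' ⊆ N D σ q p F m := by
  rintro x (rfl | ⟨k, d, rfl, h1, h2, h3, h4⟩)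
  · exact Or.inl rfl
  · exact Or.inr ⟨k, d, rfl, h.trans h1, h2, hF.trans h3, h4⟩

/-- The topology. -/
@[reducible] def topo : TopologicalSpace X where
  IsOpen U := (∀ k y, y ∉ D → X.low k y ∈ U → ∃ m, G k y m ⊆ U) ∧
    (∀ p, X.top p ∈ U → ∃ F m, N D σ q p F m ⊆ U)
  isOpen_univ := ⟨fun _ _ _ _ => ⟨0, subset_univ _⟩, fun _ _ => ⟨∅, 0, subset_univ _⟩⟩
  isOpen_inter := by
    classical
    rintro U V ⟨hU1, hU2⟩ ⟨hV1, hV2⟩
    refine ⟨fun k y hy h => ?_, fun p h => ?_⟩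
    · obtain ⟨m, hm⟩ := hU1 k y hy h.1
      obtain ⟨m', hm'⟩ := hV1 k y hy h.2
      exact ⟨max m m', subset_inter ((G_mono (le_max_left _ _)).trans hm)
        ((G_mono (le_max_right _ _)).trans hm')⟩
    · obtain ⟨F, m, hm⟩ := hU2 p h.1
      obtain ⟨F', m', hm'⟩ := hV2 p h.2
      exact ⟨F ∪ F', max m m', subset_inter
        ((N_mono D σ q Finset.subset_union_left (le_max_left _ _)).trans hm)
        ((N_mono D σ q Finset.subset_union_right (le_max_right _ _)).trans hm')⟩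
  isOpen_sUnion := by
    intro S hS
    refine ⟨fun k y hy h => ?_, fun p h => ?_⟩
    · obtain ⟨U, hU, h⟩ := h
      obtain ⟨m, hm⟩ := (hS U hU).1 k y hy h
      exact ⟨m, hm.trans (subset_sUnion_of_mem hU)⟩
    · obtain ⟨U, hU, h⟩ := h
      obtain ⟨F, m, hm⟩ := (hS U hU).2 p h
      exact ⟨F, m, hm.trans (subset_sUnion_of_mem hU)⟩

theorem isOpen_iff {U : Set X} : IsOpen[topo D σ q] U ↔
    (∀ k y, y ∉ D → X.low k y ∈ U → ∃ m, G k y m ⊆ U) ∧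
    (∀ p, X.top p ∈ U → ∃ F m, N D σ q p F m ⊆ U) := Iff.rfl

theorem isOpen_N (p F m) : IsOpen[topo D σ q] (N D σ q p F m) := by
  refine ⟨fun k y hy h => ?_, fun p' h => ?_⟩
  · exact absurd ((low_mem_N D σ q).1 h).2.1 hy
  · obtain rfl := (top_mem_N D σ q).1 h
    exact ⟨F, m, Subset.rfl⟩

theorem isOpen_G (k y m) : IsOpen[topo D σ q] (G k y m) := by
  refine ⟨fun k' y' _ h => ?_, fun p' h => absurd h top_notMem_G⟩
  obtain ⟨rfl, h0⟩ := low_mem_G.1 h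
  refine ⟨m, ?_⟩
  rintro x ⟨y'', rfl, h'⟩
  exact ⟨y'', rfl, fun i hi => (h' i hi).trans (h0 i hi)⟩

theorem isOpen_cyl (y : ℕ → Bool) (m : ℕ) : IsOpen {y' : ℕ → Bool | ∀ i < m, y' i = y i} := by
  have : {y' : ℕ → Bool | ∀ i < m, y' i = y i} =
      ⋂ i ∈ Iio m, (fun y' : ℕ → Bool => y' i) ⁻¹' {y i} := by
    ext y'
    simp
  rw [this]
  exact (finite_Iio m).isOpen_biInter fun i _ =>
    (isOpen_discrete _).preimage (continuous_apply i)

theorem isLindelof_piece (hD : ∀ K : Set (ℕ → Bool), IsClosed K → K ⊆ D → K.Countable) (k : ℕ) :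
    @IsLindelof X (topo D σ q) (range (X.low k)) := by
  let := topo D σ q
  refine isLindelof_of_countable_subcover (fun {ι} U hU hcov => ?_)
  have h1 : ∀ y, ∃ i, X.low k y ∈ U i := fun y => mem_iUnion.1 (hcov ⟨y, rfl⟩)
  choose i hi using h1
  have h2 : ∀ y, ∃ m, y ∉ D → G k y m ⊆ U (i y) := by
    intro y
    by_cases hy : y ∈ D
    · exact ⟨0, fun h => absurd hy h⟩
    · obtain ⟨m, hm⟩ := ((isOpen_iff D σ q).1 (hU (i y))).1 k y hy (hi y)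
      exact ⟨m, fun _ => hm⟩
  choose m hm using h2
  obtain ⟨t, htD, htc, ht⟩ := TopologicalSpace.countable_cover_nhdsWithin (s := Dᶜ)
    (f := fun y => {y' : ℕ → Bool | ∀ j < m y, y' j = y j})
    (fun y _ => mem_nhdsWithin_of_mem_nhds ((isOpen_cyl y (m y)).mem_nhds fun _ _ => rfl))
  have hK := hD (⋃ y ∈ t, {y' : ℕ → Bool | ∀ j < m y, y' j = y j})ᶜ
    (isOpen_biUnion fun y _ => isOpen_cyl y (m y)).isClosed_compl (compl_subset_comm.1 ht)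
  refine ⟨i '' (t ∪ (⋃ y ∈ t, {y' : ℕ → Bool | ∀ j < m y, y' j = y j})ᶜ),
    (htc.union hK).image _, ?_⟩
  rintro _ ⟨y, rfl⟩
  rw [biUnion_image]
  by_cases hy : y ∈ ⋃ y ∈ t, {y' : ℕ → Bool | ∀ j < m y, y' j = y j}
  · obtain ⟨y0, hy0, h⟩ := mem_iUnion₂.1 hy
    exact mem_iUnion₂.2 ⟨y0, Or.inl hy0, hm y0 (htD hy0) (low_mem_G.2 ⟨rfl, h⟩)⟩
  · exact mem_iUnion₂.2 ⟨y, Or.inr hy, hi y⟩

theorem cellular (hσ : ∀ F, ∃ d ∈ D, σ d = F)
    (hD : ∀ K : Set (ℕ → Bool), IsClosed K → K ⊆ D → K.Countable)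
    (hq : ∀ (p : (ℕ → Bool) → Bool) (F : Finset (ℕ → Bool)) (m : ℕ),
      ∃ k, m ≤ k ∧ ∀ y ∈ F, q k y = p y) :
    ∃ L : Set X, @IsLindelof X (topo D σ q) L ∧
      ∀ U : Set X, IsOpen[topo D σ q] U → U.Nonempty → (L ∩ U).Nonempty := by
  let := topo D σ q
  refine ⟨⋃ k, range (X.low k), isLindelof_iUnion (isLindelof_piece D σ q hD), ?_⟩
  rintro U hU ⟨x, hx⟩
  cases x with
  | low k y => exact ⟨_, mem_iUnion.2 ⟨k, y, rfl⟩, hx⟩
  | top p =>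
    obtain ⟨F, m, hm⟩ := ((isOpen_iff D σ q).1 hU).2 p hx
    obtain ⟨d, hd, rfl⟩ := hσ F
    obtain ⟨k, hk, hk'⟩ := hq p (σ d) m
    exact ⟨X.low k d, mem_iUnion.2 ⟨k, d, rfl⟩,
      hm ((low_mem_N D σ q).2 ⟨hk, hd, Finset.Subset.rfl, hk'⟩)⟩

/-- The neighbourhoods of the diagonal. -/
def W (m : ℕ) : Set (X × X) :=
  (⋃ k, ⋃ y, G k y m ×ˢ G k y m) ∪ ⋃ r, N D σ q r ∅ m ×ˢ N D σ q r ∅ m

theorem mem_W {m x x'} : (x, x') ∈ W D σ q m ↔
    (∃ k y, x ∈ G k y m ∧ x' ∈ G k y m) ∨ ∃ r, x ∈ N D σ q r ∅ m ∧ x' ∈ N D σ q r ∅ m := by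
  simp [W]

theorem W_symm {m x x'} (h : (x, x') ∈ W D σ q m) : (x', x) ∈ W D σ q m := by
  rw [mem_W] at *
  rcases h with ⟨k, y, h1, h2⟩ | ⟨r, h1, h2⟩
  · exact Or.inl ⟨k, y, h2, h1⟩
  · exact Or.inr ⟨r, h2, h1⟩

theorem sep_top_low (p k y) : ∃ m A B, IsOpen[topo D σ q] A ∧ IsOpen[topo D σ q] B ∧
    X.top p ∈ A ∧ X.low k y ∈ B ∧ ∀ a ∈ A, ∀ b ∈ B, (a, b) ∉ W D σ q m := by
  refine ⟨k + 1, N D σ q p ∅ (k + 1), G k y 0, isOpen_N D σ q _ _ _, isOpen_G D σ q _ _ _,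
    (top_mem_N D σ q).2 rfl, low_mem_G.2 ⟨rfl, by simp⟩, ?_⟩
  rintro a ha b ⟨y', rfl, -⟩ h
  rcases (mem_W D σ q).1 h with ⟨k', y'', ⟨z, rfl, -⟩, h2⟩ | ⟨r, -, h2⟩
  · have e := (low_mem_G.1 h2).1
    have := ((low_mem_N D σ q).1 ha).1
    omega
  · have := ((low_mem_N D σ q).1 h2).1
    omega

theorem sep (x x' : X) (hne : x ≠ x') : ∃ m A B, IsOpen[topo D σ q] A ∧ IsOpen[topo D σ q] B ∧
    x ∈ A ∧ x' ∈ B ∧ ∀ a ∈ A, ∀ b ∈ B, (a, b) ∉ W D σ q m := by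
  cases x with
  | low k y =>
    cases x' with
    | low k' y' =>
      by_cases hk : k = k'
      · subst hk
        have hy : y ≠ y' := fun e => hne (by rw [e])
        obtain ⟨i, hi⟩ := ne_iff.1 hy
        refine ⟨max k i + 1, G k y (i + 1), G k y' (i + 1), isOpen_G D σ q _ _ _,
          isOpen_G D σ q _ _ _, low_mem_G.2 ⟨rfl, fun _ _ => rfl⟩,
          low_mem_G.2 ⟨rfl, fun _ _ => rfl⟩, ?_⟩
        rintro a ⟨z, rfl, hz⟩ b ⟨z', rfl, hz'⟩ h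
        rcases (mem_W D σ q).1 h with ⟨k', y'', h1, h2⟩ | ⟨r, h1, -⟩
        · have e1 := (low_mem_G.1 h1).2 i (by omega)
          have e2 := (low_mem_G.1 h2).2 i (by omega)
          exact hi (by rw [← hz i (by omega), ← hz' i (by omega), e1, e2])
        · have := ((low_mem_N D σ q).1 h1).1
          omega
      · refine ⟨k + 1, G k y 0, G k' y' 0, isOpen_G D σ q _ _ _,
          isOpen_G D σ q _ _ _, low_mem_G.2 ⟨rfl, fun _ _ => rfl⟩,
          low_mem_G.2 ⟨rfl, fun _ _ => rfl⟩, ?_⟩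
        rintro a ⟨z, rfl, -⟩ b ⟨z', rfl, -⟩ h
        rcases (mem_W D σ q).1 h with ⟨k'', y'', h1, h2⟩ | ⟨r, h1, -⟩
        · exact hk ((low_mem_G.1 h1).1.trans (low_mem_G.1 h2).1.symm)
        · have := ((low_mem_N D σ q).1 h1).1
          omega
    | top p =>
      obtain ⟨m, A, B, hA, hB, h1, h2, h⟩ := sep_top_low D σ q p k y
      exact ⟨m, B, A, hB, hA, h2, h1, fun a ha b hb h' => h b hb a ha (W_symm D σ q h')⟩
  | top p =>
    cases x' with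
    | low k y => exact sep_top_low D σ q p k y
    | top p' =>
      have hp : p ≠ p' := fun e => hne (by rw [e])
      obtain ⟨α, hα⟩ := ne_iff.1 hp
      have key : ∀ (s r : (ℕ → Bool) → Bool) (a : X), a ∈ N D σ q s {α} 0 →
          a ∈ N D σ q r ∅ 0 → r α = s α := by
        intro s r a h1 h2
        cases a with
        | low k d =>
          obtain ⟨-, -, h3, h4⟩ := (low_mem_N D σ q).1 h1
          obtain ⟨-, -, -, h5⟩ := (low_mem_N D σ q).1 h2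
          have hm : α ∈ σ d := h3 (Finset.mem_singleton_self α)
          rw [← h4 α hm, ← h5 α hm]
        | top t =>
          rw [← (top_mem_N D σ q).1 h1, ← (top_mem_N D σ q).1 h2]
      refine ⟨0, N D σ q p {α} 0, N D σ q p' {α} 0, isOpen_N D σ q _ _ _, isOpen_N D σ q _ _ _,
        (top_mem_N D σ q).2 rfl, (top_mem_N D σ q).2 rfl, ?_⟩
      intro a ha b hb h
      rcases (mem_W D σ q).1 h with ⟨k, y, ⟨z, rfl, -⟩, ⟨z', rfl, -⟩⟩ | ⟨r, h1, h2⟩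
      · obtain ⟨-, -, h3, h4⟩ := (low_mem_N D σ q).1 ha
        obtain ⟨-, -, h5, h6⟩ := (low_mem_N D σ q).1 hb
        exact hα (by rw [← h4 α (h3 (Finset.mem_singleton_self α)),
          ← h6 α (h5 (Finset.mem_singleton_self α))])
      · exact hα (by rw [← key p r a ha h1, ← key p' r b hb h2])

theorem regular_diagonal : letI := topo D σ q
    ∃ W : ℕ → Set (X × X), (∀ n, IsOpen (W n) ∧ Set.diagonal X ⊆ W n) ∧
      (⋂ n, closure (W n)) = Set.diagonal X := by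
  let := topo D σ q
  have hdiag : ∀ n, Set.diagonal X ⊆ W D σ q n := by
    rintro n ⟨x, x'⟩ (h : x = x')
    subst h
    rw [mem_W]
    cases x with
    | low k y =>
      exact Or.inl ⟨k, y, low_mem_G.2 ⟨rfl, fun _ _ => rfl⟩, low_mem_G.2 ⟨rfl, fun _ _ => rfl⟩⟩
    | top p => exact Or.inr ⟨p, (top_mem_N D σ q).2 rfl, (top_mem_N D σ q).2 rfl⟩
  refine ⟨W D σ q, fun n => ⟨?_, hdiag n⟩, Subset.antisymm ?_ ?_⟩
  · refine IsOpen.union (isOpen_iUnion fun k => isOpen_iUnion fun y => ?_)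
      (isOpen_iUnion fun r => ?_)
    · exact (isOpen_G D σ q k y n).prod (isOpen_G D σ q k y n)
    · exact (isOpen_N D σ q r ∅ n).prod (isOpen_N D σ q r ∅ n)
  · rintro ⟨x, x'⟩ h
    by_contra hne
    obtain ⟨m, A, B, hA, hB, h1, h2, h3⟩ := sep D σ q x x' hne
    obtain ⟨⟨a, b⟩, ⟨ha, hb⟩, hab⟩ :=
      mem_closure_iff.1 (mem_iInter.1 h m) (A ×ˢ B) (hA.prod hB) ⟨h1, h2⟩
    exact h3 a ha b hb hab
  · exact subset_iInter fun n => (hdiag n).trans subset_closure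

end

theorem continuum_lt_mk : 𝔠 < #X := by
  have h : #((ℕ → Bool) → Bool) ≤ #X :=
    mk_le_of_injective (f := X.top) (fun p p' e => by cases e; rfl)
  refine lt_of_lt_of_le ?_ h
  have : #((ℕ → Bool) → Bool) = 2 ^ 𝔠 := by simp
  rw [this]
  exact cantor _

end Pool.Agent.P.MP_87eb76_gt
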