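import Pool.Agent.P.MP_87eb76_gt.ZSpace

/-! The space is cellular-Lindelöf. -/

set_option autoImplicit false

open Cardinal Set Function Topology Filter

namespace Pool.Agent.P.MP_87eb76_gt.Z

variable {q : ℕ → Ad} {θ : Ad → Ca → Option At}

/-- The node is `v` and the first bits of the code are given by `β`. -/
def Nb (v : List ℕ) (β : Finset ℕ) (y : X q θ) : Prop :=
  y.1.v = v ∧ ∀ i < v.length, (y.1.e i = true ↔ i ∈ β)

/-- The largest index in a coordinate. -/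
def idx : Co → ℕ
  | .inl i => i
  | .inr (.inl p) => p.1 + p.2
  | .inr (.inr γ) => γ.1

theorem normal_form (hq : ∀ (p : Ad) (F : Finset Ca) (m : ℕ), ∃ k, m ≤ k ∧ ∀ y ∈ F, q k y = p y)
    {U : Set (X q θ)} (hU : IsOpen U) (hne : U.Nonempty) :
    ∃ (v : List ℕ) (β : Finset ℕ) (Γ P : Finset At), P ⊆ Γ ∧ Val q v P ∧
      ∀ y : X q θ, Nb v β y → (∀ γ ∈ Γ, γ ∈ dat θ y.1 ↔ γ ∈ P) → y ∈ U := by
  classical
  obtain ⟨x, hx⟩ := hne
  obtain ⟨Γ₀, hΓ⟩ := exists_fin (hU.mem_nhds hx)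
  let Γ : Finset At := Γ₀.toRight.toRight
  have hmem : ∀ γ, γ ∈ Γ ↔ Sum.inr (Sum.inr γ) ∈ Γ₀ := fun γ => by simp [Γ]
  let M := Γ₀.sup idx + 1
  have hM : ∀ c ∈ Γ₀, idx c < M := fun c hc => Nat.lt_succ_of_le (Finset.le_sup (f := idx) hc)
  obtain ⟨k, hk, hqk⟩ := hq x.1.a (Γ.image Prod.snd).toRight M
  let v := x.1.v ++ List.replicate M k
  have hlen : v.length = x.1.v.length + M := by simp [v]
  have hlo : ∀ j < x.1.v.length, v[j]? = x.1.v[j]? := fun j hj => List.getElem?_append_left hj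
  have hhi : ∀ j k', x.1.v.length ≤ j → v[j]? = some k' → k' = k := fun j k' hj h => by
    rw [List.getElem?_append_right hj] at h
    exact List.eq_of_mem_replicate (List.mem_of_getElem? h)
  refine ⟨v, (Finset.range v.length).filter fun i => x.1.e i = true, Γ,
    Γ.filter (hold θ x.1), Finset.filter_subset _ _, fun j k' b ζ hj h1 h2 => ?_,
    fun y hy hd => hΓ y ?_⟩
  · obtain ⟨-, h1⟩ := Finset.mem_filter.1 h1
    obtain ⟨h3, h2⟩ := Finset.mem_filter.1 h2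
    rcases lt_or_ge j x.1.v.length with h | h
    · exact val_of_hold (hlo j h ▸ hj) h1 h2
    · rw [hhi j k' h hj, (h1.resolve_right fun h' => h.not_gt h'.1).2 b rfl]
      exact (hqk ζ (Finset.mem_toRight.2 (Finset.mem_image_of_mem Prod.snd h3))).symm
  · rintro (i | ⟨j, k'⟩ | γ) hc
    · have : i < v.length := by have := hM _ hc; simp only [idx] at this; omega
      simp [co, hy.2 i this, this]
    · have h1 : k' < k := by have := hM _ hc; simp only [idx] at this; omega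
      simp only [co, hy.1]
      rcases lt_or_ge j x.1.v.length with h | h
      · rw [hlo j h]
      · exact iff_of_false (fun h' => h1.ne (hhi j k' h h')) (by simp [h])
    · have h1 : γ.1 < y.1.v.length := by
        have := hM _ hc; simp only [idx] at this; rw [hy.1]; omega
      have h2 := hd γ ((hmem γ).2 hc)
      rw [Finset.mem_filter, and_iff_right ((hmem γ).2 hc)] at h2
      exact ⟨fun h => h2.1 (h.resolve_left fun h' => h1.ne h'.1).2, fun h => Or.inr ⟨h1, h2.2 h⟩⟩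

/-- The code with first bits `β` and blocks `y`. -/
def cd (m : ℕ) (β : Finset ℕ) {n : ℕ} (y : Fin (n + 1) → Ca) : Ca := fun i =>
  if i < m then decide (i ∈ β) else y (Fin.ofNat (n + 1) (i - m).unpair.1) (i - m).unpair.2

theorem dat_cd (v : List ℕ) (β : Finset ℕ) (b : Ad) {n : ℕ} (y : Fin (n + 1) → Ca) :
    dat θ ⟨v, b, cd v.length β y⟩ = {γ | ∃ l, θ b (y l) = some γ} := by
  have h : ∀ i, blk v.length (cd v.length β y) i = y (Fin.ofNat (n + 1) i) := fun i => by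
    funext t; simp [blk, cd]
  ext γ
  simp only [dat, h, mem_ofPred_eq]
  exact ⟨fun ⟨i, hi⟩ => ⟨_, hi⟩, fun ⟨l, hl⟩ => ⟨l, by simpa using hl⟩⟩

theorem isClopen_const {Y : Type} [TopologicalSpace Y] {p : Prop} : IsClopen {_y : Y | p} :=
  ⟨isClosed_const, isOpen_const⟩

theorem sheet_one {D : Set Ca} (hD : Thin D) {b : Ad}
    (hb : ∀ γ, IsClopen (Mic.val ⁻¹' {c | θ b c = some γ} : Set (Mic D))) (v : List ℕ)
    (β : Finset ℕ) (n : ℕ) :
    IsLindelof {x : X q θ | ∃ y : Fin (n + 1) → Ca, x.1 = ⟨v, b, cd v.length β y⟩} := by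
  have := lindelof_pow hD (n + 1)
  let pt : (Fin (n + 1) → Mic D) → Pt := fun y => ⟨v, b, cd v.length β fun l => (y l).val⟩
  have hc : ∀ γ, IsClopen {y | γ ∈ dat θ (pt y)} := fun γ => by
    have : {y | γ ∈ dat θ (pt y)} = ⋃ l, (fun y => y l) ⁻¹' (Mic.val ⁻¹' {c | θ b c = some γ}) := by
      ext y; simp [pt, dat_cd]
    rw [this]
    exact isClopen_iUnion_of_finite fun l => (hb γ).preimage (continuous_apply l)
  let F : Set (Fin (n + 1) → Mic D) := {y | Val q v (dat θ (pt y))}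
  have hF : IsClosed F := by
    have : F = ⋂ j : ℕ, ⋂ k, ⋂ b', ⋂ ζ, ⋂ _ : v[j]? = some k, {y | (j, Sum.inl b') ∈ dat θ (pt y) →
        (j, Sum.inr ζ) ∈ dat θ (pt y) → b' ζ = q k ζ} := by
      ext y; simp only [F, Val, mem_iInter, mem_ofPred_eq]
    rw [this]
    exact isClosed_iInter fun j => isClosed_iInter fun k => isClosed_iInter fun b' =>
      isClosed_iInter fun ζ => isClosed_iInter fun _ =>
        isClosed_imp (hc _).2 (isClosed_imp (hc _).2 isClosed_const)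
  have : LindelofSpace F := isLindelof_iff_lindelofSpace.1 hF.isLindelof
  have hco : ∀ c, IsClopen {y | co θ (pt y) c} := by
    rintro (i | p | γ)
    · simp only [co, pt, cd]
      split_ifs
      · exact isClopen_const
      · exact (isClopen_discrete {true}).preimage
          ((continuous_apply _).comp (continuous_val.comp (continuous_apply _)))
    · exact isClopen_const (p := v[p.1]? = some p.2)
    · exact (isClopen_const (p := γ.1 = v.length ∧ ∀ b', γ.2 = Sum.inl b' → b' = b)).union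
        ((isClopen_const (p := γ.1 < v.length)).inter (hc γ))
  let f : F → X q θ := fun y => ⟨pt y.1, y.2⟩
  have hf : Continuous f :=
    continuous_to fun c => (hco c).preimage continuous_subtype_val
  convert isLindelof_range hf using 1
  ext x
  refine ⟨fun ⟨y, hy⟩ => ⟨⟨fun l => ⟨y l⟩, ?_⟩, Subtype.ext hy.symm⟩, ?_⟩
  · have := x.2
    rwa [hy] at this
  · rintro ⟨y, rfl⟩
    exact ⟨_, rfl⟩

theorem sheet {ι : Ca → Ca} (hι : Injective ι) (hD : Thin (range ι)) (hθ : Surjective θ)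
    (Ξ : Set At) (hΞ : #Ξ ≤ 𝔠) : ∃ L : Set (X q θ), IsLindelof L ∧
      ∀ (v : List ℕ) (β : Finset ℕ) (S : Finset At), ↑S ⊆ Ξ → Val q v S →
        ∃ x ∈ L, Nb v β x ∧ dat θ x.1 = S := by
  classical
  have h1 : #(Option Ξ) ≤ #Ca := by
    rw [mk_option, mk_cantor]
    exact add_le_of_le aleph0_le_continuum hΞ (one_le_aleph0.trans aleph0_le_continuum)
  obtain ⟨κ⟩ := h1
  have hf : Injective (ι ∘ κ) := hι.comp κ.injective
  obtain ⟨b, hb⟩ := hθ fun c => if h : ∃ o : Ξ, ι (κ (some o)) = c then some h.choose.1 else none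
  have g0 : θ b (ι (κ none)) = none := by
    rw [hb]; exact dif_neg fun ⟨o, ho⟩ => by cases hf ho
  have g1 : ∀ o : Ξ, θ b (ι (κ (some o))) = some o.1 := fun o => by
    have h : ∃ o' : Ξ, ι (κ (some o')) = ι (κ (some o)) := ⟨o, rfl⟩
    rw [hb]
    exact (dif_pos h).trans (by rw [Option.some.inj (hf h.choose_spec)])
  have g2 : ∀ c γ, θ b c = some γ → ∃ o : Ξ, o.1 = γ ∧ ι (κ (some o)) = c := fun c γ h => by
    rw [hb] at h
    dsimp only at h
    split_ifs at h with h'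
    exact ⟨_, Option.some.inj h, h'.choose_spec⟩
  have hcl : ∀ γ, IsClopen (Mic.val ⁻¹' {c | θ b c = some γ} : Set (Mic (range ι))) := fun γ =>
    isClopen_fibre (fun c hc c' hc' => by
      obtain ⟨o, h1, rfl⟩ := g2 c γ hc
      obtain ⟨o', h2, rfl⟩ := g2 c' γ hc'
      rw [Subtype.ext (h1.trans h2.symm)]) fun c hc => let ⟨_, _, h⟩ := g2 c γ hc; ⟨_, h⟩
  refine ⟨_, isLindelof_iUnion fun v => isLindelof_iUnion fun β => isLindelof_iUnion fun n =>
    sheet_one (q := q) hD hcl v β n, fun v β S hS hv => ?_⟩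
  let y : Fin (S.card + 1) → Ca := Fin.cons (ι (κ none))
    fun l => ι (κ (some ⟨(S.equivFin.symm l).1, hS (S.equivFin.symm l).2⟩))
  have hy : dat θ ⟨v, b, cd v.length β y⟩ = S := by
    rw [dat_cd]
    ext γ
    simp only [mem_ofPred_eq, Fin.exists_fin_succ, y, Fin.cons_zero, Fin.cons_succ, g0, g1,
      reduceCtorEq, false_or, Option.some.injEq, Finset.mem_coe]
    exact ⟨fun ⟨l, hl⟩ => hl ▸ (S.equivFin.symm l).2, fun h => ⟨S.equivFin ⟨γ, h⟩, by simp⟩⟩
  exact ⟨⟨⟨v, b, cd v.length β y⟩, hy ▸ hv⟩,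
    mem_iUnion.2 ⟨v, mem_iUnion.2 ⟨β, mem_iUnion.2 ⟨_, y, rfl⟩⟩⟩,
    ⟨rfl, fun i hi => by simp [cd, hi]⟩, hy⟩

/-- The trace of an atom on a finite set. -/
def tr (G : Finset Ca) (γ : At) : ℕ × (Finset Ca ⊕ Ca) :=
  (γ.1, γ.2.map (fun b => G.filter fun ζ => b ζ = true) id)

theorem exists_tr (Γ : Finset At) : ∃ G : Finset Ca, InjOn (tr G) Γ := by
  classical
  have h : ∀ p : Ad × Ad, ∃ ζ, p.1 ζ = p.2 ζ → p.1 = p.2 := fun p => by
    by_contra hc
    push Not at hc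
    exact (hc default).2 (funext fun ζ => (hc ζ).1)
  choose w hw using h
  let B := (Γ.image Prod.snd).toLeft
  refine ⟨(B ×ˢ B).image w, ?_⟩
  rintro ⟨j, b | ζ⟩ h1 ⟨j', b' | ζ'⟩ h2 e <;> simp only [tr, Prod.mk.injEq, Sum.map_inl,
    Sum.map_inr, Sum.inl.injEq, Sum.inr.injEq, reduceCtorEq, and_false, id] at e ⊢
  · refine ⟨e.1, hw (b, b') ?_⟩
    have hm : w (b, b') ∈ (B ×ˢ B).image w := Finset.mem_image_of_mem w (Finset.mem_product.2
      ⟨Finset.mem_toLeft.2 (Finset.mem_image_of_mem Prod.snd h1),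
        Finset.mem_toLeft.2 (Finset.mem_image_of_mem Prod.snd h2)⟩)
    have := Finset.ext_iff.1 e.2 (w (b, b'))
    simp only [Finset.mem_filter, hm, true_and] at this
    exact Bool.eq_iff_iff.2 this
  · exact e

theorem tr_inr {G : Finset Ca} {γ : At} {j : ℕ} {ζ : Ca} (h : tr G γ = tr G (j, .inr ζ)) :
    γ = (j, .inr ζ) := by
  obtain ⟨j', b | ζ'⟩ := γ
  · simp [tr] at h
  · simpa [tr] using h

theorem cellular (hq : ∀ (p : Ad) (F : Finset Ca) (m : ℕ), ∃ k, m ≤ k ∧ ∀ y ∈ F, q k y = p y)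
    (hθ : Surjective θ) (𝒰 : Set (Set (X q θ))) (h𝒰 : ∀ U ∈ 𝒰, IsOpen U ∧ U.Nonempty)
    (hd : 𝒰.PairwiseDisjoint id) : ∃ L : Set (X q θ), IsLindelof L ∧ ∀ U ∈ 𝒰, (L ∩ U).Nonempty := by
  classical
  obtain ⟨ι, hι, hD⟩ := exists_thin
  choose v β Γ P h1 h2 h3 using fun U : 𝒰 => normal_form hq (h𝒰 U.1 U.2).1 (h𝒰 U.1 U.2).2
  choose G hG using fun U : 𝒰 => exists_tr (Γ U)
  have hinj : Injective fun U : 𝒰 => (v U, β U, G U, (P U).image (tr (G U))) := by
    intro U U' e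
    simp only [Prod.mk.injEq] at e
    obtain ⟨e1, e2, e3, e4⟩ := e
    have a : ∀ γ ∈ P U', ∃ γ' ∈ P U, tr (G U) γ' = tr (G U) γ := fun γ h =>
      Finset.mem_image.1 (by rw [e4, e3]; exact Finset.mem_image_of_mem _ h)
    have a' : ∀ γ ∈ P U, ∃ γ' ∈ P U', tr (G U') γ' = tr (G U') γ := fun γ h =>
      Finset.mem_image.1 (by rw [← e4, ← e3]; exact Finset.mem_image_of_mem _ h)
    have hv : Val q (v U) ↑(P U ∪ P U') := fun j k b ζ hj hb hz => by
      have z : (j, Sum.inr ζ) ∈ P U ∧ (j, Sum.inr ζ) ∈ P U' := by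
        rcases Finset.mem_union.1 hz with h | h
        · obtain ⟨γ, h', e⟩ := a' _ h
          exact ⟨h, tr_inr e ▸ h'⟩
        · obtain ⟨γ, h', e⟩ := a _ h
          exact ⟨tr_inr e ▸ h', h⟩
      rcases Finset.mem_union.1 hb with h | h
      exacts [h2 U j k b ζ hj h z.1, h2 U' j k b ζ (e1 ▸ hj) h z.2]
    obtain ⟨L, -, hL⟩ := sheet (q := q) hι hD hθ ↑(P U ∪ P U')
      ((Finset.finite_toSet _).lt_aleph0.le.trans aleph0_le_continuum)
    obtain ⟨x, -, hx, hx'⟩ := hL (v U) (β U) _ Subset.rfl hv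
    have b1 : x ∈ U.1 := h3 U x hx fun γ hγ => by
      rw [hx', Finset.mem_coe, Finset.mem_union]
      refine ⟨fun h => h.elim id fun h => ?_, Or.inl⟩
      obtain ⟨γ', h', e⟩ := a γ h
      exact hG U (h1 U h') hγ e ▸ h'
    have b2 : x ∈ U'.1 := h3 U' x (e1 ▸ e2 ▸ hx) fun γ hγ => by
      rw [hx', Finset.mem_coe, Finset.mem_union]
      refine ⟨fun h => h.elim (fun h => ?_) id, Or.inr⟩
      obtain ⟨γ', h', e⟩ := a' γ h
      exact hG U' (h1 U' h') hγ e ▸ h'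
    exact Subtype.ext (by_contra fun hne => disjoint_left.1 (hd U.2 U'.2 hne) b1 b2)
  have hc : #𝒰 ≤ 𝔠 := (mk_le_of_injective hinj).trans_eq (by simp)
  have hΞ : #(⋃ U : 𝒰, (P U : Set At)) ≤ 𝔠 :=
    (mk_iUnion_le _).trans ((mul_le_mul' hc (ciSup_le' fun U =>
      (P U).finite_toSet.lt_aleph0.le)).trans_eq continuum_mul_aleph0)
  obtain ⟨L, hL, hL'⟩ := sheet (q := q) hι hD hθ _ hΞ
  refine ⟨L, hL, fun U hU => ?_⟩
  obtain ⟨x, hx, a1, a2⟩ := hL' (v ⟨U, hU⟩) (β ⟨U, hU⟩) (P ⟨U, hU⟩)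
    (subset_iUnion (fun U : 𝒰 => (P U : Set At)) ⟨U, hU⟩) (h2 _)
  exact ⟨x, hx, h3 ⟨U, hU⟩ x a1 fun γ _ => by rw [a2, Finset.mem_coe]⟩

theorem exists_decoder : ∃ θ : Ad → Ca → Option At, Surjective θ := by
  have h1 : ℵ₀ ≤ 2 ^ 𝔠 := aleph0_le_continuum.trans (cantor _).le
  have h2 : #(Option At) = 2 ^ 𝔠 := by
    have : #Ad = 2 ^ 𝔠 := by simp
    rw [mk_option, mk_prod, mk_sum, this, mk_cantor, mk_nat]
    simp only [lift_id]
    rw [add_eq_left h1 (cantor _).le, aleph0_mul_eq h1, add_one_eq h1]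
  have h3 : #Ad = #(Ca → Option At) := by
    rw [← power_def (Option At), h2, mk_cantor, ← power_mul, continuum_mul_self]
    simp
  obtain ⟨e⟩ := Cardinal.eq.1 h3
  exact ⟨e, e.surjective⟩

/-- A zero-dimensional Tychonoff cellular-Lindelöf space with a regular G-delta diagonal and
`2 ^ 𝔠` points. -/
theorem main : ∃ (X : Type) (_ : TopologicalSpace X), T35Space X ∧
    TopologicalSpace.IsTopologicalBasis {U : Set X | IsClopen U} ∧
    (∀ 𝒰 : Set (Set X), (∀ U ∈ 𝒰, IsOpen U ∧ U.Nonempty) → 𝒰.PairwiseDisjoint id →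
      ∃ L : Set X, IsLindelof L ∧ ∀ U ∈ 𝒰, (L ∩ U).Nonempty) ∧
    (∃ W : ℕ → Set (X × X), (∀ n, IsOpen (W n) ∧ Set.diagonal X ⊆ W n) ∧
      (⋂ n, closure (W n)) = Set.diagonal X) ∧
    #X = 2 ^ 𝔠 := by
  obtain ⟨q, hq⟩ := exists_dense_seq
  obtain ⟨θ, hθ⟩ := exists_decoder
  exact ⟨X q θ, inferInstance, t35, basis_clopen, cellular hq hθ, regular_diagonal, mk_X⟩

end Pool.Agent.P.MP_87eb76_gt.Z
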