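import Pool.Agent.P.MP_87eb76_gt.SetTheory

/-! A Michael line with continuum many isolated points all of whose finite powers are Lindelöf. -/

set_option autoImplicit false

open Cardinal Set Function Topology Filter

namespace Pool.Agent.P.MP_87eb76_gt.Z

/-- The Cantor set. -/
abbrev Ca : Type := ℕ → Bool

/-- A set covered by countably many coordinate hyperplanes. -/
def Small {n : ℕ} (F : Set (Fin n → Ca)) : Prop :=
  ∃ S : Set Ca, S.Countable ∧ ∀ x ∈ F, ∃ i, x i ∈ S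

theorem Small.mono {n : ℕ} {F G : Set (Fin n → Ca)} (h : Small G) (hF : F ⊆ G) : Small F :=
  let ⟨S, h1, h2⟩ := h
  ⟨S, h1, fun x hx => h2 x (hF hx)⟩

theorem small_biUnion {n : ℕ} {I : Type} {T : Set I} (hT : T.Countable)
    {F : I → Set (Fin n → Ca)} (h : ∀ t ∈ T, Small (F t)) : Small (⋃ t ∈ T, F t) := by
  choose! S h1 h2 using h
  refine ⟨⋃ t ∈ T, S t, hT.biUnion h1, fun x hx => ?_⟩
  obtain ⟨t, ht, hx⟩ := mem_iUnion₂.1 hx
  obtain ⟨i, hi⟩ := h2 t ht x hx
  exact ⟨i, mem_biUnion ht hi⟩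

theorem Small.union {n : ℕ} {F G : Set (Fin n → Ca)} (hF : Small F) (hG : Small G) :
    Small (F ∪ G) := by
  obtain ⟨S, h1, h2⟩ := hF
  obtain ⟨S', h1', h2'⟩ := hG
  refine ⟨S ∪ S', h1.union h1', ?_⟩
  rintro x (hx | hx)
  · exact (h2 x hx).imp fun _ => Or.inl
  · exact (h2' x hx).imp fun _ => Or.inr

theorem isClopen_bits {n : ℕ} (t : Fin n → ℕ) (x : Fin n → Ca) :
    IsClopen {z : Fin n → Ca | ∀ i, z i (t i) = x i (t i)} := by
  rw [ofPred_forall]
  exact isClopen_iInter_of_finite fun i =>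
    (isClopen_discrete {x i (t i)}).preimage (f := fun z : Fin n → Ca => z i (t i)) (by fun_prop)

theorem split {n : ℕ} {K : Set (Fin n → Ca)} (hK : IsClosed K) (h : ¬Small K) :
    ∃ P : Bool → Set (Fin n → Ca), (∀ b, P b ⊆ K ∧ IsClosed (P b) ∧ ¬Small (P b)) ∧
      ∀ x ∈ P false, ∀ y ∈ P true, ∀ i, x i ≠ y i := by
  let G : Set (Fin n → Ca) := {x | x ∈ K ∧ ∃ U ∈ 𝓝 x, Small (K ∩ U)}
  have hG : Small G := by
    have : ∀ x ∈ G, ∃ U ∈ 𝓝 x, Small (K ∩ U) := fun x hx => hx.2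
    choose! U h1 h2 using this
    obtain ⟨t, ht, htc, hc⟩ := TopologicalSpace.countable_cover_nhdsWithin (f := U) (s := G)
      fun x hx => mem_nhdsWithin_of_mem_nhds (h1 x hx)
    refine (small_biUnion htc fun x hx => h2 x (ht hx)).mono fun x hx => ?_
    obtain ⟨y, hy, hxy⟩ := mem_iUnion₂.1 (hc hx)
    exact mem_biUnion hy ⟨hx.1, hxy⟩
  have hKG : ∀ S : Set Ca, S.Countable → ∃ x ∈ K \ G, ∀ i, x i ∉ S := fun S hS => by
    by_contra hc
    push Not at hc
    exact h ((Small.union ⟨S, hS, hc⟩ hG).mono fun x hx => by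
      by_cases hx' : x ∈ G
      exacts [Or.inr hx', Or.inl ⟨hx, hx'⟩])
  obtain ⟨x, hx, -⟩ := hKG ∅ countable_empty
  obtain ⟨y, hy, hxy⟩ := hKG (range x) (countable_range x)
  have hne : ∀ i, ∃ t, x i t ≠ y i t := fun i => ne_iff.1 fun e => hxy i ⟨i, e⟩
  choose t ht using hne
  have key : ∀ w ∈ K \ G, IsClosed (K ∩ {z | ∀ i, z i (t i) = w i (t i)}) ∧
      ¬Small (K ∩ {z | ∀ i, z i (t i) = w i (t i)}) := fun w hw =>
    ⟨hK.inter (isClopen_bits t w).1,
      fun hs => hw.2 ⟨hw.1, _, (isClopen_bits t w).2.mem_nhds fun _ => rfl, hs⟩⟩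
  refine ⟨fun b => K ∩ {z | ∀ i, z i (t i) = cond b y x i (t i)}, fun b => ⟨inter_subset_left, ?_⟩,
    fun u hu w hw i e => ht i ?_⟩
  · cases b
    exacts [key x hx, key y hy]
  · exact (hu.2 i).symm.trans ((congrFun e _).trans (hw.2 i))

theorem exists_perfect {n : ℕ} {K : Set (Fin n → Ca)} (hK : IsClosed K) (h : ¬Small K) :
    ∃ φ : Ca → Fin n → Ca, (∀ α, φ α ∈ K) ∧ ∀ i, Injective fun α => φ α i := by
  classical
  let St := {F : Set (Fin n → Ca) // IsClosed F ∧ ¬Small F}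
  choose P h1 h2 using fun s : St => split s.2.1 s.2.2
  let sq : Ca → ℕ → St := fun α m =>
    Nat.rec ⟨K, hK, h⟩ (fun m s => ⟨P s (α m), (h1 s _).2⟩) m
  have hs : ∀ α m, (sq α (m + 1)).1 = P (sq α m) (α m) := fun _ _ => rfl
  have hne : ∀ α, (⋂ m, (sq α m).1).Nonempty := fun α =>
    IsCompact.nonempty_iInter_of_sequence_nonempty_isCompact_isClosed _
      (fun m => by rw [hs]; exact (h1 _ _).1)
      (fun m => nonempty_iff_ne_empty.2 fun e => (sq α m).2.2
        ⟨∅, countable_empty, fun x hx => by rw [e] at hx; exact hx.elim⟩)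
      hK.isCompact fun m => (sq α m).2.1
  choose φ hφ using hne
  have hmem : ∀ α m, φ α ∈ (sq α m).1 := fun α => mem_iInter.1 (hφ α)
  have hsame : ∀ α β m, (∀ k < m, α k = β k) → sq α m = sq β m := fun α β m => by
    induction m with
    | zero => exact fun _ => rfl
    | succ m ih =>
      intro hk
      apply Subtype.ext
      rw [hs, hs, ih fun k h => hk k (h.trans m.lt_succ_self), hk m m.lt_succ_self]
  refine ⟨φ, fun α => hmem α 0, fun i α β e => by_contra fun hne => ?_⟩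
  have hex : ∃ m, α m ≠ β m := ne_iff.1 hne
  have a1 := hmem α (Nat.find hex + 1)
  have a2 := hmem β (Nat.find hex + 1)
  have a3 := Nat.find_spec hex
  rw [hs] at a1 a2
  rw [← hsame α β _ fun k hk => not_not.1 (Nat.find_min hex hk)] at a2
  cases ha : α (Nat.find hex) <;> cases hb : β (Nat.find hex) <;> rw [ha] at a1 a3 <;>
    rw [hb] at a2 a3
  · exact a3 rfl
  · exact h2 _ _ a1 _ a2 i e
  · exact h2 _ _ a2 _ a1 i e.symm
  · exact a3 rfl

theorem exists_avoid {n : ℕ} {K : Set (Fin n → Ca)} (hK : IsClosed K) (h : ¬Small K)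
    (S : Set Ca) (hS : #S < 𝔠) : ∃ x ∈ K, ∀ i, x i ∉ S := by
  obtain ⟨φ, h1, h2⟩ := exists_perfect hK h
  by_contra hc
  push Not at hc
  choose i hi using fun α => hc _ (h1 α)
  have hinj : Injective fun α => ((i α, ⟨φ α (i α), hi α⟩) : Fin n × S) := fun α β e => by
    obtain ⟨e1, e2⟩ := Prod.mk.inj e
    have e3 : φ α (i α) = φ β (i β) := congrArg Subtype.val e2
    rw [← e1] at e3
    exact h2 _ e3
  have h3 := mk_le_of_injective hinj
  rw [mk_cantor, mk_prod, lift_id, lift_id] at h3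
  exact absurd h3 (not_le.2 (mul_lt_of_lt aleph0_le_continuum
    ((lt_aleph0_of_finite _).trans_le aleph0_le_continuum) hS))

/-- Greedy transfinite choice of pairwise disjoint finite sets. -/
theorem exists_disj_choice {J Y : Type} (hJ : #J ≤ 𝔠) (𝓕 : J → Set (Finset Y))
    (h : ∀ j (S : Set Y), #S < 𝔠 → ∃ s ∈ 𝓕 j, ∀ y ∈ s, y ∉ S) :
    ∃ f : J → Finset Y, (∀ j, f j ∈ 𝓕 j) ∧ ∀ i j, i ≠ j → ∀ y ∈ f i, y ∉ f j := by
  classical
  obtain ⟨lo, wf, ho⟩ := Cardinal.exists_ord_eq_type_lt J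
  have step : ∀ (j : J) (g : ∀ i, i < j → Finset Y),
      ∃ s ∈ 𝓕 j, ∀ y ∈ s, ∀ i (hi : i < j), y ∉ g i hi := by
    intro j g
    have h1 : #(⋃ i : Iio j, (g i.1 i.2 : Set Y)) < 𝔠 := by
      refine (mk_iUnion_le _).trans_lt (mul_lt_of_lt aleph0_le_continuum
        ((Cardinal.mk_Iio_lt j ho).trans_le hJ) (lt_of_le_of_lt ?_ aleph0_lt_continuum))
      exact ciSup_le' fun i => (g i.1 i.2).finite_toSet.lt_aleph0.le
    obtain ⟨s, hs, hs'⟩ := h j _ h1
    exact ⟨s, hs, fun y hy i hi e => hs' y hy (mem_iUnion.2 ⟨⟨i, hi⟩, e⟩)⟩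
  choose nxt hn1 hn2 using step
  let f : J → Finset Y := (wellFounded_lt (α := J)).fix nxt
  have hf : ∀ j, f j = nxt j (fun i _ => f i) := fun j => (wellFounded_lt (α := J)).fix_eq nxt j
  have hlt : ∀ i j, i < j → ∀ y ∈ f j, y ∉ f i := fun i j hij y hy =>
    hn2 j (fun i _ => f i) y (hf j ▸ hy) i hij
  refine ⟨f, fun j => by rw [hf j]; exact hn1 _ _, fun i j hij y hy hy' => ?_⟩
  rcases lt_or_gt_of_ne hij with h1 | h1
  exacts [hlt i j h1 y hy' hy, hlt j i h1 y hy hy']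

theorem mk_closed_le' (Y : Type) [TopologicalSpace Y] [SecondCountableTopology Y] :
    #{C : Set Y // IsClosed C} ≤ 𝔠 := by
  obtain ⟨b, hbc, -, hb⟩ := TopologicalSpace.exists_countable_basis Y
  have : Countable b := hbc.to_subtype
  let φ : {C : Set Y // IsClosed C} → Set b := fun C => {u | Disjoint u.1 C.1}
  have key : ∀ C C' : {C : Set Y // IsClosed C}, φ C = φ C' → C'.1 ⊆ C.1 := by
    intro C C' e x hx
    by_contra hx'
    obtain ⟨u, hu, hxu, huC⟩ := hb.exists_subset_of_mem_open (u := C.1ᶜ) hx' C.2.isOpen_compl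
    have h1 : (⟨u, hu⟩ : b) ∈ φ C := subset_compl_iff_disjoint_right.1 huC
    rw [e] at h1
    exact disjoint_left.1 h1 hxu hx
  have hφ : Injective φ := fun C C' e =>
    Subtype.ext (Subset.antisymm (key C' C e.symm) (key C C' e))
  calc #{C : Set Y // IsClosed C} ≤ #(Set b) := mk_le_of_injective hφ
    _ = 2 ^ #b := mk_set
    _ ≤ 2 ^ ℵ₀ := power_le_power_left two_ne_zero mk_le_aleph0
    _ = 𝔠 := two_power_aleph0

/-- Closed sets all of whose points have a coordinate in `D` are small. -/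
def Thin (D : Set Ca) : Prop :=
  ∀ (n : ℕ) (K : Set (Fin n → Ca)), IsClosed K → (∀ x ∈ K, ∃ i, x i ∈ D) → Small K

theorem exists_thin : ∃ ι : Ca → Ca, Injective ι ∧ Thin (range ι) := by
  classical
  let A := Σ n : ℕ, {K : Set (Fin n → Ca) // IsClosed K ∧ ¬Small K}
  have hA : #A ≤ 𝔠 := by
    rw [mk_sigma]
    refine (sum_le_sum _ (fun _ => 𝔠) fun n => le_trans (mk_le_of_injective
      (f := fun C => (⟨C.1, C.2.1⟩ : {C : Set (Fin n → Ca) // IsClosed C}))
      fun C C' e => Subtype.ext (Subtype.mk.inj e)) (mk_closed_le' _)).trans_eq ?_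
    simp
  have hJ : #(A ⊕ Ca) ≤ 𝔠 := by
    rw [mk_sum, lift_id, lift_id, mk_cantor]
    exact (add_le_add hA le_rfl).trans_eq continuum_add_self
  obtain ⟨f, h1, h2⟩ := exists_disj_choice hJ
    (Sum.elim (fun p : A => {s | ∃ x ∈ p.2.1, s = Finset.univ.image x})
      fun _ => {s : Finset Ca | ∃ d, s = {d}}) (by
    rintro (p | c) S hS
    · obtain ⟨x, hx, hx'⟩ := exists_avoid p.2.2.1 p.2.2.2 S hS
      exact ⟨_, ⟨x, hx, rfl⟩, fun y hy => by
        obtain ⟨i, -, rfl⟩ := Finset.mem_image.1 hy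
        exact hx' i⟩
    · have : S ≠ Set.univ := fun e => by rw [e, mk_univ, mk_cantor] at hS; exact hS.false
      obtain ⟨d, hd⟩ := (ne_univ_iff_exists_notMem S).1 this
      exact ⟨_, ⟨d, rfl⟩, fun y hy => by rwa [Finset.mem_singleton.1 hy]⟩)
  choose ι hι using fun c : Ca => h1 (Sum.inr c)
  have hm : ∀ c, ι c ∈ f (Sum.inr c) := fun c => by rw [hι]; exact Finset.mem_singleton_self _
  refine ⟨ι, fun c c' e => by_contra fun hne =>
    h2 _ _ (fun e' => hne (Sum.inr.inj e')) _ (hm c) (e ▸ hm c'), fun n K hK hD => ?_⟩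
  by_contra hs
  obtain ⟨x, hx, e⟩ := h1 (Sum.inl ⟨n, K, hK, hs⟩)
  obtain ⟨i, c, hc⟩ := hD x hx
  refine h2 _ (Sum.inl ⟨n, K, hK, hs⟩) Sum.inr_ne_inl _ (hm c) ?_
  rw [e]
  exact Finset.mem_image.2 ⟨i, Finset.mem_univ _, hc.symm⟩

/-- The Cantor set with the points of `D` made isolated. -/
structure Mic (D : Set Ca) where
  val : Ca

instance (D : Set Ca) : TopologicalSpace (Mic D) where
  IsOpen U := ∀ y ∈ U, y.val ∉ D → Mic.mk ⁻¹' U ∈ 𝓝 y.val
  isOpen_univ := fun _ _ _ => univ_mem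
  isOpen_inter := fun _ _ h h' y hy hD => inter_mem (h y hy.1 hD) (h' y hy.2 hD)
  isOpen_sUnion := fun _ h y ⟨U, hU, hy⟩ hD =>
    mem_of_superset (h U hU y hy hD) (preimage_mono (subset_sUnion_of_mem hU))

variable {D : Set Ca}

theorem continuous_val : Continuous (Mic.val : Mic D → Ca) :=
  ⟨fun _ hU _ hy _ => hU.mem_nhds hy⟩

theorem continuousAt_mk {c : Ca} (hc : c ∉ D) : ContinuousAt (Mic.mk : Ca → Mic D) c :=
  fun _ hU => let ⟨_, h1, h2, h3⟩ := mem_nhds_iff.1 hU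
    mem_of_superset (h2 _ h3 hc) (preimage_mono h1)

theorem val_injective : Injective (Mic.val : Mic D → Ca) := fun _ _ e => congrArg Mic.mk e

instance : T2Space (Mic D) := .of_injective_continuous val_injective continuous_val

theorem isClopen_fibre {s : Set Ca} (hs : s.Subsingleton) (hD : s ⊆ D) :
    IsClopen (Mic.val ⁻¹' s : Set (Mic D)) :=
  ⟨(hs.preimage val_injective).isClosed, fun _ hy h => (h (hD hy)).elim⟩

theorem lindelof_pow (hD : Thin D) (n : ℕ) : LindelofSpace (Fin n → Mic D) := by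
  induction n with
  | zero => infer_instance
  | succ n ih =>
    refine ⟨isLindelof_of_countable_subcover fun {I} U hU hc => ?_⟩
    let up : (Fin (n + 1) → Ca) → Fin (n + 1) → Mic D := fun z i => ⟨z i⟩
    obtain ⟨T, hT, hTU⟩ := TopologicalSpace.isOpen_iUnion_countable
      (fun i => interior (up ⁻¹' U i)) fun _ => isOpen_interior
    obtain ⟨S, hS, hS'⟩ := hD (n + 1) (⋃ i, interior (up ⁻¹' U i))ᶜ
      (isOpen_iUnion fun _ => isOpen_interior).isClosed_compl fun x hx => by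
        by_contra hn
        push Not at hn
        obtain ⟨i, hi⟩ := mem_iUnion.1 (hc (mem_univ (up x)))
        have : ContinuousAt up x := continuousAt_pi.2 fun l =>
          (continuousAt_mk (hn l)).comp (f := fun z : Fin (n + 1) → Ca => z l)
            (continuous_apply l).continuousAt
        exact hx (mem_iUnion.2 ⟨i, mem_interior_iff_mem_nhds.2 (this ((hU i).mem_nhds hi))⟩)
    have hH : IsLindelof (⋃ i : Fin (n + 1), ⋃ c ∈ S,
        range fun w : Fin n → Mic D => (i.insertNth (⟨c⟩ : Mic D) w : Fin (n + 1) → Mic D)) :=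
      isLindelof_iUnion fun i => hS.isLindelof_biUnion fun c _ =>
        isLindelof_range (Continuous.finInsertNth i continuous_const continuous_id)
    obtain ⟨T', hT', hc'⟩ := hH.elim_countable_subcover U hU ((subset_univ _).trans hc)
    refine ⟨T ∪ T', hT.union hT', fun y _ => ?_⟩
    rw [biUnion_union]
    by_cases hy : (fun i => (y i).val) ∈ ⋃ i, interior (up ⁻¹' U i)
    · rw [← hTU] at hy
      obtain ⟨i, hi, hy⟩ := mem_iUnion₂.1 hy
      exact Or.inl (mem_biUnion hi (interior_subset (s := up ⁻¹' U i) hy))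
    · obtain ⟨i, hi⟩ := hS' _ hy
      exact Or.inr (hc' (mem_iUnion.2 ⟨i, mem_biUnion hi
        ⟨i.removeNth y, Fin.insertNth_self_removeNth i y⟩⟩))

end Pool.Agent.P.MP_87eb76_gt.Z
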