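import Pool.Agent.P.MP_87eb76_gt.ZMic

/-! A zero-dimensional space of size `2 ^ 𝔠` with a regular G-delta diagonal. -/

set_option autoImplicit false

open Cardinal Set Function Topology Filter

namespace Pool.Agent.P.MP_87eb76_gt.Z

/-- Addresses. -/
abbrev Ad : Type := Ca → Bool

/-- Atoms: a level together with an address or a point of the Cantor set. -/
abbrev At : Type := ℕ × (Ad ⊕ Ca)

/-- A node of the tree, an address and a code. -/
structure Pt where
  v : List ℕ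
  a : Ad
  e : Ca

/-- The `i`-th block of a code after the first `m` bits. -/
def blk (m : ℕ) (e : Ca) (i : ℕ) : Ca := fun t => e (m + Nat.pair i t)

variable (q : ℕ → Ad) (θ : Ad → Ca → Option At)

/-- The atoms coded by a point. -/
def dat (x : Pt) : Set At := {γ | ∃ i, θ x.a (blk x.v.length x.e i) = some γ}

/-- A set of atoms is valid at a node. -/
def Val (v : List ℕ) (S : Set At) : Prop :=
  ∀ j k b ζ, v[j]? = some k → (j, Sum.inl b) ∈ S → (j, Sum.inr ζ) ∈ S → b ζ = q k ζ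

/-- An atom holds at a point. -/
def hold (x : Pt) (γ : At) : Prop :=
  (γ.1 = x.v.length ∧ ∀ b, γ.2 = Sum.inl b → b = x.a) ∨ (γ.1 < x.v.length ∧ γ ∈ dat θ x)

/-- Coordinates. -/
abbrev Co : Type := ℕ ⊕ (ℕ × ℕ) ⊕ At

/-- The value of a coordinate at a point. -/
def co (x : Pt) : Co → Prop
  | .inl i => x.e i = true
  | .inr (.inl p) => x.v[p.1]? = some p.2
  | .inr (.inr γ) => hold θ x γ

/-- The space. -/
def X : Type := {x : Pt // Val q x.v (dat θ x)}

open Classical in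
/-- The embedding in a Cantor cube. -/
noncomputable def emb (x : X q θ) (c : Co) : Bool := decide (co θ x.1 c)

noncomputable instance : TopologicalSpace (X q θ) := .induced (emb q θ) inferInstance

variable {q θ}

theorem emb_eq {x y : X q θ} {c : Co} : emb q θ x c = emb q θ y c ↔ (co θ x.1 c ↔ co θ y.1 c) := by
  simp [emb]

theorem isClopen_co (c : Co) : IsClopen {x : X q θ | co θ x.1 c} := by
  have h : Continuous fun x : X q θ => emb q θ x c :=
    (continuous_apply c).comp (f := emb q θ) continuous_induced_dom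
  simpa [emb, preimage] using (isClopen_discrete {true}).preimage h

theorem exists_fin {x : X q θ} {U : Set (X q θ)} (hU : U ∈ 𝓝 x) :
    ∃ Γ : Finset Co, ∀ y : X q θ, (∀ c ∈ Γ, co θ y.1 c ↔ co θ x.1 c) → y ∈ U := by
  rw [nhds_induced, nhds_pi, mem_comap] at hU
  obtain ⟨V, hV, hVU⟩ := hU
  obtain ⟨Γ, t, ht, hs⟩ := mem_pi'.1 hV
  exact ⟨Γ, fun y hy => hVU (hs fun c hc => by
    rw [emb_eq.2 (hy c hc)]; exact mem_of_mem_nhds (ht c))⟩

theorem continuous_to {Y : Type} [TopologicalSpace Y] {f : Y → X q θ}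
    (h : ∀ c, IsClopen {y | co θ (f y).1 c}) : Continuous f := by
  refine continuous_induced_rng.2 (continuous_pi fun c => ?_)
  rw [continuous_bool_rng true]
  simpa [emb, preimage] using h c

theorem emb_injective : Injective (emb q θ) := by
  rintro ⟨⟨v, a, e⟩, hx⟩ ⟨⟨v', a', e'⟩, hy⟩ h
  have h' := fun c => emb_eq.1 (congrFun h c)
  have h1 : v = v' := List.ext_getElem? fun j => Option.ext fun k => h' (.inr (.inl (j, k)))
  have h2 : e = e' := funext fun i => Bool.eq_iff_iff.2 (h' (.inl i))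
  subst h1 h2
  have h3 : a = a' := by
    rcases (h' (.inr (.inr (v.length, .inl a)))).1
      (Or.inl ⟨rfl, fun b hb => (Sum.inl.inj hb).symm⟩) with h | h
    exacts [h.2 a rfl, (lt_irrefl _ h.1).elim]
  subst h3
  rfl

theorem t35 : T35Space (X q θ) :=
  (⟨⟨rfl⟩, emb_injective⟩ : IsEmbedding (emb q θ)).t35Space

theorem basis_clopen : TopologicalSpace.IsTopologicalBasis {U : Set (X q θ) | IsClopen U} := by
  refine TopologicalSpace.isTopologicalBasis_of_isOpen_of_nhds (fun _ h => h.2) fun x U hx hU => ?_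
  obtain ⟨Γ, h⟩ := exists_fin (hU.mem_nhds hx)
  refine ⟨⋂ c ∈ Γ, {y | co θ y.1 c ↔ co θ x.1 c}, isClopen_biInter_finset fun c _ => ?_,
    mem_iInter₂.2 fun _ _ => Iff.rfl, fun y hy => h y (mem_iInter₂.1 hy)⟩
  by_cases hc : co θ x.1 c
  · simpa [hc] using isClopen_co c
  · simpa [hc, compl_ofPred] using (isClopen_co (q := q) (θ := θ) c).compl

theorem mk_X : #(X q θ) = 2 ^ 𝔠 := by
  have hA : #Ad = 2 ^ 𝔠 := by simp
  have h1 : ℵ₀ ≤ 2 ^ 𝔠 := aleph0_le_continuum.trans (cantor _).le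
  apply le_antisymm
  · have := mk_le_of_injective (f := fun x : X q θ => (x.1.v, x.1.a, x.1.e)) (by
      rintro ⟨⟨v, a, e⟩, hx⟩ ⟨⟨v', a', e'⟩, hy⟩ h
      simp only [Prod.mk.injEq] at h
      obtain ⟨rfl, rfl, rfl⟩ := h
      rfl)
    refine this.trans ?_
    rw [mk_prod, mk_prod, hA, mk_cantor]
    simp only [lift_id]
    rw [mul_eq_left h1 (cantor _).le continuum_ne_zero]
    exact (mul_le_mul_left (mk_le_aleph0.trans h1) _).trans_eq (mul_eq_self h1)
  · rw [← hA]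
    exact mk_le_of_injective (f := fun a : Ad =>
      (⟨⟨[], a, default⟩, fun j k b ζ h => by simp at h⟩ : X q θ))
      fun a a' h => congrArg (fun x : X q θ => x.1.a) h

/-- The points whose node extends `v`. -/
def ext (v : List ℕ) : Set (X q θ) := {y | ∀ j k : ℕ, v[j]? = some k → y.1.v[j]? = some k}

theorem isOpen_ext (v : List ℕ) : IsOpen (ext v : Set (X q θ)) := by
  have : (ext v : Set (X q θ)) = ⋂ j : Fin v.length, {y | co θ y.1 (.inr (.inl (j, v[j])))} := by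
    ext y
    simp only [ext, co, mem_iInter, mem_ofPred_eq]
    refine ⟨fun h j => h _ _ (by simp), fun h j k hk => ?_⟩
    obtain ⟨hj, rfl⟩ := List.getElem?_eq_some_iff.1 hk
    exact h ⟨j, hj⟩
  rw [this]
  exact isOpen_iInter_of_finite fun j => (isClopen_co _).2

/-- The `n`-th neighbourhood of a point. -/
def box (n : ℕ) (r : X q θ) : Set (X q θ) :=
  (⋂ i ∈ Iio n, {y | y.1.e i = r.1.e i}) ∩ ext r.1.v ∩
    (⋂ k ∈ Iio n, {y | y.1.v[r.1.v.length]? ≠ some k}) ∩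
    {y | hold θ y.1 (r.1.v.length, .inl r.1.a)}

theorem isOpen_bit (i : ℕ) (b : Bool) : IsOpen {y : X q θ | y.1.e i = b} := by
  cases b
  · simpa [co, compl_ofPred] using (isClopen_co (q := q) (θ := θ) (.inl i)).compl.2
  · exact (isClopen_co (.inl i)).2

theorem isOpen_ne (j k : ℕ) : IsOpen {y : X q θ | y.1.v[j]? ≠ some k} :=
  (isClopen_co (q := q) (θ := θ) (.inr (.inl (j, k)))).compl.2

theorem isOpen_hold (γ : At) : IsOpen {y : X q θ | hold θ y.1 γ} := (isClopen_co (.inr (.inr γ))).2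

theorem isOpen_box (n : ℕ) (r : X q θ) : IsOpen (box n r) :=
  ((((finite_Iio n).isOpen_biInter fun _ _ => isOpen_bit _ _).inter (isOpen_ext _)).inter
    ((finite_Iio n).isOpen_biInter fun _ _ => isOpen_ne _ _)).inter (isOpen_hold _)

theorem hold_self (x : Pt) : hold θ x (x.v.length, .inl x.a) :=
  Or.inl ⟨rfl, fun _ hb => (Sum.inl.inj hb).symm⟩

theorem mem_box (n : ℕ) (r : X q θ) : r ∈ box n r :=
  ⟨⟨⟨mem_iInter₂.2 fun _ _ => rfl, fun _ _ h => h⟩, mem_iInter₂.2 fun _ _ => by simp⟩, hold_self _⟩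

theorem ext_of_box {n : ℕ} {r y : X q θ} {v : List ℕ} (hv : ∀ k ∈ v, k < n) (hy : y ∈ box n r)
    (hy' : y ∈ ext v) : r ∈ ext v := by
  intro j k hk
  have hj := (List.getElem?_eq_some_iff.1 hk).1
  rcases lt_or_ge j r.1.v.length with h | h
  · have h1 := List.getElem?_eq_getElem h
    rw [h1, ← hy.1.1.2 _ _ h1, hy' j k hk]
  · have h1 := List.getElem?_eq_getElem (h.trans_lt hj)
    exact (mem_iInter₂.1 hy.1.2 _ (hv _ (List.getElem_mem _)) (hy' _ _ h1)).elim

theorem val_of_hold {y : X q θ} {j k : ℕ} {b : Ad} {ζ : Ca} (hk : y.1.v[j]? = some k)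
    (h1 : hold θ y.1 (j, .inl b)) (h2 : hold θ y.1 (j, .inr ζ)) : b ζ = q k ζ := by
  have hj := (List.getElem?_eq_some_iff.1 hk).1
  exact y.2 j k b ζ hk ((h1.resolve_left fun h => hj.ne h.1).2)
    ((h2.resolve_left fun h => hj.ne h.1).2)

theorem eq_of_hold {y : X q θ} {j : ℕ} {b b' : Ad} {ζ : Ca} (h1 : hold θ y.1 (j, .inl b))
    (h1' : hold θ y.1 (j, .inl b')) (h2 : hold θ y.1 (j, .inr ζ)) : b ζ = b' ζ := by
  rcases lt_or_ge j y.1.v.length with h | h
  · have hk := List.getElem?_eq_getElem h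
    rw [val_of_hold hk h1 h2, val_of_hold hk h1' h2]
  · rw [(h1.resolve_right fun h' => h.not_gt h'.1).2 b rfl,
      (h1'.resolve_right fun h' => h.not_gt h'.1).2 b' rfl]

/-- Two points have neighbourhoods that no single box of some level meets. -/
def Sep (x x' : X q θ) : Prop :=
  ∃ (n : ℕ) (W W' : Set (X q θ)), IsOpen W ∧ IsOpen W' ∧ x ∈ W ∧ x' ∈ W' ∧
    ∀ r, ∀ y ∈ box n r, ∀ y' ∈ box n r, y ∈ W → y' ∉ W'

theorem Sep.symm {x x' : X q θ} (h : Sep x x') : Sep x' x :=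
  let ⟨n, W, W', h1, h2, h3, h4, h5⟩ := h
  ⟨n, W', W, h2, h1, h4, h3, fun r y hy y' hy' a b => h5 r y' hy' y hy b a⟩

theorem exists_bound (v : List ℕ) : ∃ n, ∀ k ∈ v, k < n :=
  ⟨v.sum + 1, fun _ hk => Nat.lt_succ_of_le (List.le_sum_of_mem hk)⟩

theorem sep_node {x x' : X q θ} {j k : ℕ} (h : x.1.v[j]? ≠ some k) (h' : x'.1.v[j]? = some k) :
    Sep x x' := by
  obtain ⟨n, hn⟩ := exists_bound x'.1.v
  exact ⟨n, _, ext x'.1.v, isOpen_ne j k, isOpen_ext _, h, fun _ _ h => h,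
    fun r y hy y' hy' a b => a (hy.1.1.2 _ _ (ext_of_box hn hy' b j k h'))⟩

theorem sep_of_ne {x x' : X q θ} (h : x ≠ x') : Sep x x' := by
  by_cases he : x.1.e = x'.1.e
  swap
  · obtain ⟨i, hi⟩ := ne_iff.1 he
    exact ⟨i + 1, _, _, isOpen_bit i (x.1.e i), isOpen_bit i (x'.1.e i), rfl, rfl,
      fun r y hy y' hy' a b => hi (a.symm.trans ((mem_iInter₂.1 hy.1.1.1 i i.lt_succ_self).trans
        ((mem_iInter₂.1 hy'.1.1.1 i i.lt_succ_self).symm.trans b)))⟩
  by_cases hv : x.1.v = x'.1.v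
  swap
  · by_contra hc
    refine hv (List.ext_getElem? fun j => Option.ext fun k => ⟨fun h1 => ?_, fun h1 => ?_⟩)
    · exact by_contra fun h2 => hc (sep_node h2 h1).symm
    · exact by_contra fun h2 => hc (sep_node h2 h1)
  have ha : x.1.a ≠ x'.1.a := fun ha => h (by
    obtain ⟨⟨v, a, e⟩, hx⟩ := x
    obtain ⟨⟨v', a', e'⟩, hx'⟩ := x'
    dsimp only at he hv ha
    subst he hv ha
    rfl)
  obtain ⟨ζ, hζ⟩ := ne_iff.1 ha
  obtain ⟨n, hn⟩ := exists_bound x.1.v
  let W : Ad → Set (X q θ) := fun a => ext x.1.v ∩ {y | hold θ y.1 (x.1.v.length, .inl a)} ∩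
    {y | hold θ y.1 (x.1.v.length, .inr ζ)}
  have hW : ∀ a, IsOpen (W a) := fun a =>
    ((isOpen_ext _).inter (isOpen_hold _)).inter (isOpen_hold _)
  refine ⟨n, W x.1.a, W x'.1.a, hW _, hW _,
    ⟨⟨fun _ _ h => h, hold_self _⟩, Or.inl ⟨rfl, fun _ h => by cases h⟩⟩,
    ⟨⟨fun _ _ h => hv ▸ h, hv ▸ hold_self _⟩, Or.inl ⟨by rw [hv], fun _ h => by cases h⟩⟩,
    fun r y hy y' hy' a b => hζ ?_⟩
  rcases lt_or_ge x.1.v.length r.1.v.length with h1 | h1
  · have hk := List.getElem?_eq_getElem h1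
    rw [val_of_hold (hy.1.1.2 _ _ hk) a.1.2 a.2, val_of_hold (hy'.1.1.2 _ _ hk) b.1.2 b.2]
  · have h2 : r.1.v.length = x.1.v.length := h1.antisymm (not_lt.1 fun h3 => by
      have := ext_of_box hn hy a.1.1 _ _ (List.getElem?_eq_getElem h3)
      simp at this)
    rw [eq_of_hold a.1.2 (h2 ▸ hy.2) a.2, eq_of_hold b.1.2 (h2 ▸ hy'.2) b.2]

theorem regular_diagonal : ∃ W : ℕ → Set (X q θ × X q θ),
    (∀ n, IsOpen (W n) ∧ diagonal (X q θ) ⊆ W n) ∧ (⋂ n, closure (W n)) = diagonal (X q θ) := by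
  have hd : ∀ n, diagonal (X q θ) ⊆ ⋃ r, box n r ×ˢ box n r := by
    rintro n ⟨x, y⟩ (rfl : x = y)
    exact mem_iUnion.2 ⟨x, mem_box n x, mem_box n x⟩
  refine ⟨fun n => ⋃ r, box n r ×ˢ box n r,
    fun n => ⟨isOpen_iUnion fun r => (isOpen_box n r).prod (isOpen_box n r), hd n⟩,
    Subset.antisymm ?_ (subset_iInter fun n => (hd n).trans subset_closure)⟩
  rintro ⟨x, x'⟩ hx
  by_contra hne
  obtain ⟨n, W, W', h1, h2, h3, h4, h5⟩ := sep_of_ne (x := x) (x' := x') hne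
  obtain ⟨⟨y, y'⟩, hy, hy'⟩ := mem_closure_iff.1 (mem_iInter.1 hx n) _ (h1.prod h2) ⟨h3, h4⟩
  obtain ⟨r, hr⟩ := mem_iUnion.1 hy'
  exact h5 r y hr.1 y' hr.2 hy.1 hy.2

end Pool.Agent.P.MP_87eb76_gt.Z
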